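import Pool.Agent.D0H63.AR.Gen
import Pool.Agent.Results.MP_c9768e_nt.ConjugateSemiElliptic

/-!
# Logarithms and elliptic logarithms at ALL conjugates of the algebraic numbers near to generic numbers

Let `U` be open and connected in `ℂ`, and let `t_1, …, t_a`, `p_1, …, p_n` be analytic on `U`, `exp(t_l)` algebraic functions and
`℘(p_i)` or `ζ(p_i)` algebraic functions, where `℘`, `ζ` belong to one of the lattices `Ω_1, …, Ω_q`, pairwise without homomorphisms.
Suppose that the `t_l`, and the `p_i` of each lattice over the ring of its endomorphisms, are linearly independent modulo constants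
(`Family`; for instance `log x`, `log (1 - x)`, the elliptic integrals of the first kind `p(x)`, `℘(p(x)) = x`, and of the second kind
`ζ(p(x))`, or `p(x)` with `ζ(p(x)) = x`). At an algebraic number `x` in `U` we get logarithms of algebraic numbers and elliptic logarithms
of algebraic points. The conjecture on split semi-elliptic logarithms predicts that the numbers `t_l(x)`, `p_i(x)`, `ζ(p_i(x))` (or
`℘(p_i(x))`, if `ζ(p_i)` is algebraic) are algebraically independent when the lattices have algebraic invariants and the obvious linear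
relations do not hold; and so are, in general, these numbers for all the conjugates of `x` in `U` together.

Let `ξ_0, ξ_1, …` be given complex numbers (for instance the powers of `π`), and let a sequence of such families be given. We show:

(1) Let `g ≥ 1`, `τ > 0`. There is a set `E` of Hausdorff dimension at most `g / τ` in `ℝ^g` (a null set if `τ > 1`) such that for all
`ω` outside of `E` for which `X^g + ω_(g-1) X^(g-1) + … + ω_0` has simple roots, for all families such that the roots of this polynomial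
on the boundary of `U` are real numbers near to which `U` has no real points (`Clear`; this allows roots on the cuts of a plane with
real cuts, but not at their ends), and for all `k` and `C`, for all large `T`: for ALL integral polynomials `a_g X^g + … + a_0` with
`|a_i| ≤ T` and `|ω_i - a_i / a_g| ≤ C T^(-τ)`, the `a + 2 n` numbers for ALL the roots `x` of the polynomial in `U` together satisfy no
relation of degree at most `k` in each of them with coefficients `∑_{b < k} ξ_b c_b`, `c_b` integers of size at most `T^k` of a number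
field of degree at most `k`. By Dirichlet's theorem there are, for `τ = 1 + 1 / g` and for every `ω`, such polynomials for arbitrarily
large `T`. So the statement is true for the best rational approximations of almost every real polynomial.

(2) There is a set `E` of Hausdorff dimension at most `g / τ` in `ℂ` such that for all `x₀` outside of `E`, all families, all `k`, `C`,
`R` and `η > 0`, for all large `T`: the same is true for ALL integral polynomials of degree `g` with coefficients at most `T`, one root of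
which is within `C T^(-τ)` of `x₀`, and the roots of which are at most `R`, at distance at least `η` from each other and (those in
`U`) from the complement of `U`.

(3) There is one null set `N` of real numbers such that the statement in (2) is true for all real `x₀` outside of `N`, for all `g ≥ 1` and
all `τ > g`; by the theorem of Sprindzhuk there are for almost all real `x₀` and every `τ < g + 1` infinitely many algebraic numbers `x` of
degree `g` with `|x₀ - x| ≤ H(x)^(-τ)`.

The starting file `ConjugateSemiElliptic` treats the conjugates of 100 percent of the points `x / b` over ONE number field; here the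
algebraic numbers of degree `g` generate different fields, and the numbers near to one given number or polynomial, which are very few, are
all considered. Proof: the exceptional polynomials lie on `C T^ε` hypersurfaces (`Pool.Agent.X255.RH.excR_cov`), and so there are at most
`C T^(g + ε)` of them, which is the number in the lemma of Hausdorff and Cantelli (`Pool.Agent.D0H63.AR`); the algebraic independence of
the functions is the theorem of Ax type of the starting files.
-/

set_option autoImplicit false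

namespace Pool.Agent.Results.MP_c9768e_nt.ConjugateApproximations

open Filter Polynomial MeasureTheory NumberField Topology
open scoped PeriodPair

/-- The Weierstrass zeta function `ζ(z) = ∑ (1/(z-l) + 1/l + z/l²)`, the sum over the lattice (the summand of
`l = 0` is `1/z`, since `1/0 = 0` in Lean). -/
noncomputable def ζ (L : PeriodPair) (z : ℂ) : ℂ :=
  ∑' l : L.lattice, (1 / (z - l) + 1 / l + z / l ^ 2)

/-- `f` satisfies on `U` a polynomial equation with polynomials in the variable as coefficients. -/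
def Algebraic (U : Set ℂ) (f : ℂ → ℂ) : Prop :=
  ∃ Q : Polynomial ℂ[X], Q ≠ 0 ∧ ∀ z ∈ U, Q.eval₂ (Polynomial.evalRingHom z) (f z) = 0

/-- Analytic functions `t_1, …, t_a` and `p_1, …, p_n` on the open connected set `U`, the `p_i` with values outside one of the lattices
`Ω c`, its type; the lattices `Ω c` have pairwise no homomorphisms. The `exp(t_l)` are algebraic functions, and `℘(p_i)` (if
`kind i = true`) or `ζ(p_i)` (if `kind i = false`) is algebraic. No nontrivial combination with integral coefficients of the `t_l`, and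
for each `c` no nontrivial combination of the `p_i` of type `c` with coefficients in the ring of the endomorphisms of `ℂ / Ω c`, is
constant. -/
structure Family {q a n : ℕ} (U : Set ℂ) (Ω : Fin q → PeriodPair) (ty : Fin n → Fin q) (kind : Fin n → Bool)
    (t : Fin a → ℂ → ℂ) (p : Fin n → ℂ → ℂ) : Prop where
  isOpen : IsOpen U
  isPreconnected : IsPreconnected U
  nonempty : U.Nonempty
  noHom : ∀ c c', c ≠ c' → ∀ α : ℂ, (∀ w ∈ (Ω c).lattice, α * w ∈ (Ω c').lattice) → α = 0
  analytic_t : ∀ l, AnalyticOnNhd ℂ (t l) U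
  analytic_p : ∀ i, AnalyticOnNhd ℂ (p i) U
  notMem : ∀ i, ∀ z ∈ U, p i z ∉ (Ω (ty i)).lattice
  algebraic_exp : ∀ l, Algebraic U (fun z => Complex.exp (t l z))
  algebraic_wp : ∀ i, kind i = true → Algebraic U (fun z => ℘[Ω (ty i)] (p i z))
  algebraic_zeta : ∀ i, kind i = false → Algebraic U (fun z => ζ (Ω (ty i)) (p i z))
  independent_t : ∀ (m : Fin a → ℤ) (b : ℂ), (∀ z ∈ U, ∑ l, (m l : ℂ) * t l z = b) → m = 0
  independent_p : ∀ (c : Fin q) (u : Fin n → ℂ) (b : ℂ), (∀ i, ∀ w ∈ (Ω c).lattice, u i * w ∈ (Ω c).lattice) →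
    (∀ i, ty i ≠ c → u i = 0) → (∀ z ∈ U, ∑ i, u i * p i z = b) → u = 0

/-- The `a + 2 n` functions: `t_l`, `p_i`, and `ζ(p_i)` if `kind i = true`, `℘(p_i)` if `kind i = false`. -/
noncomputable def value {q a n : ℕ} (Ω : Fin q → PeriodPair) (ty : Fin n → Fin q) (kind : Fin n → Bool)
    (t : Fin a → ℂ → ℂ) (p : Fin n → ℂ → ℂ) : Fin a ⊕ (Fin n ⊕ Fin n) → ℂ → ℂ
  | Sum.inl l, z => t l z
  | Sum.inr (Sum.inl i), z => p i z
  | Sum.inr (Sum.inr i), z => if kind i then ζ (Ω (ty i)) (p i z) else ℘[Ω (ty i)] (p i z)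

/-- The polynomial `a_0 + a_1 x + … + a_g x^g`. -/
noncomputable def poly {g : ℕ} (a : Fin (g + 1) → ℤ) : ℂ[X] := ∑ i, C (a i : ℂ) * X ^ (i : ℕ)

/-- The roots of the polynomial in `U`. -/
noncomputable def rootsIn {g : ℕ} (U : Set ℂ) (a : Fin (g + 1) → ℤ) : Finset ℂ := by
  classical exact (poly a).roots.toFinset.filter fun z => z ∈ U

/-- The numbers `x q` satisfy no relation of degree at most `k` in each of them with coefficients `∑_{b < k} ξ_b c_b`, where the `c_b` are
integers of a number field of degree at most `k` all of whose conjugates are at most `T ^ k`, except the relations all of whose coefficients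
vanish. -/
def NoRelation {Q : Type} [Fintype Q] [DecidableEq Q] (ξ : ℕ → ℂ) (k : ℕ) (T : ℝ) (x : Q → ℂ) : Prop :=
  ∀ (F : Type) [Field F] [NumberField F], Module.finrank ℚ F ≤ k → ∀ (io : F →+* ℂ)
    (c : (Q → Fin (k + 1)) → Fin k → 𝓞 F), (∀ l b (φ : F →+* ℂ), ‖φ (c l b : F)‖ ≤ T ^ k) →
    ∑ l, (∑ b : Fin k, ξ b * io (c l b : F)) * ∏ q, x q ^ (l q : ℕ) = 0 → ∀ l, ∑ b : Fin k, ξ b * io (c l b : F) = 0

/-- There is no relation of degree at most `k` in each of them between the numbers `f_y(x)`, for all `y` and all the roots `x` in `U` of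
the polynomial with the coefficients `a` together. -/
def Unrelated {σ : Type} [Fintype σ] [DecidableEq σ] {g : ℕ} (U : Set ℂ) (f : σ → ℂ → ℂ) (ξ : ℕ → ℂ) (k : ℕ) (T : ℝ)
    (a : Fin (g + 1) → ℤ) : Prop :=
  NoRelation ξ k T fun q : {x // x ∈ rootsIn U a} × σ => f q.2 q.1

/-- the polynomial `X^g + ω_(g-1) X^(g-1) + … + ω_0` -/
noncomputable def monic {g : ℕ} (ω : Fin g → ℝ) : ℂ[X] := X ^ g + ∑ i, C (ω i : ℂ) * X ^ (i : ℕ)

/-- The roots of `P` on the boundary of `U` are real numbers, near to which there are no real points of `U`. -/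
def Clear (U : Set ℂ) (P : ℂ[X]) : Prop :=
  ∀ z ∈ frontier U, P.eval z = 0 → z.im = 0 ∧ ∃ r : ℝ, 0 < r ∧ ∀ y ∈ U, y.im = 0 → r ≤ ‖y - z‖

/-- the polynomial is of degree `g`, its roots are of absolute value at most `R`, at distance at least `η` from each other, and the
roots in `U` at distance at least `η` from the complement of `U` -/
def Position {g : ℕ} (U : Set ℂ) (R η : ℝ) (a : Fin (g + 1) → ℤ) : Prop :=
  ∃ z : Fin g → ℂ, (a (Fin.last g) ≠ 0 ∧ poly a = C (a (Fin.last g) : ℂ) * ∏ j, (X - C (z j))) ∧ (∀ i, ‖z i‖ ≤ R) ∧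
    (∀ i j, i ≠ j → η ≤ ‖z i - z j‖) ∧ ∀ i, z i ∈ U → Metric.ball (z i) η ⊆ U

/-- polynomials in one variable as polynomials in the variables of `Unit` -/
noncomputable def toMv : ℂ[X] →+* MvPolynomial Unit ℂ := (Polynomial.aeval (R := ℂ) (MvPolynomial.X ())).toRingHom

theorem toMv_injective : Function.Injective toMv := by
  have h1 : (MvPolynomial.pUnitAlgEquiv ℂ : MvPolynomial PUnit ℂ →ₐ[ℂ] ℂ[X]).comp
      (Polynomial.aeval (R := ℂ) (MvPolynomial.X ())) = AlgHom.id ℂ ℂ[X] := by
    apply Polynomial.algHom_ext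
    simp
  have h2 : Function.LeftInverse (MvPolynomial.pUnitAlgEquiv ℂ : MvPolynomial PUnit ℂ → ℂ[X]) toMv := by
    intro P
    exact congrArg (fun F : ℂ[X] →ₐ[ℂ] ℂ[X] => F P) h1
  exact h2.injective

theorem eval_toMv (z : Unit → ℂ) : (MvPolynomial.eval z).comp toMv = Polynomial.evalRingHom (z ()) := by
  apply Polynomial.ringHom_ext
  · intro c
    simp [toMv]
  · simp [toMv]

/-- one variable -/
theorem indep_of_ind {σ : Type} {V : Set ℂ} {f : σ → ℂ → ℂ}
    (h : N207.AX.Ind {z : Unit → ℂ | z () ∈ V} (fun i (z : Unit → ℂ) => f i (z ()))) : X255.RH.Indep V f := by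
  intro P hP
  have h1 : MvPolynomial.map toMv P = 0 := by
    refine h _ fun z hz => ?_
    rw [MvPolynomial.eval₂_map, eval_toMv]
    exact hP _ hz
  exact MvPolynomial.map_injective _ toMv_injective (by rw [h1, map_zero])

theorem algebraic_lift {U : Set ℂ} {f : ℂ → ℂ} (h : Algebraic U f) :
    ConjugateSemiElliptic.Algebraic {z : Unit → ℂ | z () ∈ U} (fun z => f (z ())) := by
  obtain ⟨Q, hQ, hf⟩ := h
  refine ⟨Q.map toMv, ?_, fun z hz => ?_⟩
  · rwa [Ne, Polynomial.map_eq_zero_iff toMv_injective]
  · rw [Polynomial.eval₂_map, eval_toMv]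
    exact hf _ hz

theorem analytic_lift {U : Set ℂ} {f : ℂ → ℂ} (h : AnalyticOnNhd ℂ f U) :
    AnalyticOnNhd ℂ (fun z : Unit → ℂ => f (z ())) {z : Unit → ℂ | z () ∈ U} := by
  have h1 : AnalyticOnNhd ℂ (fun z : Unit → ℂ => z ()) {z : Unit → ℂ | z () ∈ U} :=
    fun z _ => (ContinuousLinearMap.proj (R := ℂ) (φ := fun _ : Unit => ℂ) ()).analyticAt z
  exact h.comp h1 fun z hz => hz

/-- the family of functions on `ℂ ^ Unit` -/
theorem Family.lift {q a n : ℕ} {U : Set ℂ} {Ω : Fin q → PeriodPair} {ty : Fin n → Fin q} {kind : Fin n → Bool}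
    {t : Fin a → ℂ → ℂ} {p : Fin n → ℂ → ℂ} (h : Family U Ω ty kind t p) :
    ConjugateSemiElliptic.Family (X := Unit) {z : Unit → ℂ | z () ∈ U} Ω ty kind (fun l z => t l (z ()))
      (fun i z => p i (z ())) where
  isOpen := h.isOpen.preimage (continuous_apply ())
  isPreconnected := by
    have h1 : {z : Unit → ℂ | z () ∈ U} = (fun (c : ℂ) (_ : Unit) => c) '' U := by
      ext z
      constructor
      · intro hz
        exact ⟨z (), hz, by funext u; rfl⟩
      · rintro ⟨c, hc, rfl⟩
        exact hc
    rw [h1]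
    exact h.isPreconnected.image _ (by fun_prop)
  nonempty := by
    obtain ⟨c, hc⟩ := h.nonempty
    exact ⟨fun _ => c, hc⟩
  noHom := h.noHom
  analytic_t l := analytic_lift (h.analytic_t l)
  analytic_p i := analytic_lift (h.analytic_p i)
  notMem i z hz := h.notMem i _ hz
  algebraic_exp l := algebraic_lift (h.algebraic_exp l)
  algebraic_wp i hi := algebraic_lift (h.algebraic_wp i hi)
  algebraic_zeta i hi := algebraic_lift (h.algebraic_zeta i hi)
  independent_t m b hm := h.independent_t m b fun z hz => hm (fun _ => z) hz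
  independent_p c u b h1 h2 h3 := h.independent_p c u b h1 h2 fun z hz => h3 (fun _ => z) hz

/-- the functions are algebraically independent -/
theorem Family.indep {q a n : ℕ} {U : Set ℂ} {Ω : Fin q → PeriodPair} {ty : Fin n → Fin q} {kind : Fin n → Bool}
    {t : Fin a → ℂ → ℂ} {p : Fin n → ℂ → ℂ} (h : Family U Ω ty kind t p) :
    X255.RH.Indep U (value Ω ty kind t p) := by
  apply indep_of_ind
  have h1 := ConjugateSemiElliptic.independent (N945.AX.ell (N301.AX.ind N878.AX.line)) h.lift
  have h2 : ConjugateSemiElliptic.value Ω ty kind (fun l (z : Unit → ℂ) => t l (z ())) (fun i z => p i (z ())) =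
      fun i (z : Unit → ℂ) => value Ω ty kind t p i (z ()) := by
    funext y z
    rcases y with l | i | i
    · rfl
    · rfl
    · rfl
  rw [h2] at h1
  exact h1

theorem Family.analytic {q a n : ℕ} {U : Set ℂ} {Ω : Fin q → PeriodPair} {ty : Fin n → Fin q} {kind : Fin n → Bool}
    {t : Fin a → ℂ → ℂ} {p : Fin n → ℂ → ℂ} (h : Family U Ω ty kind t p) (y : Fin a ⊕ (Fin n ⊕ Fin n)) :
    AnalyticOnNhd ℂ (value Ω ty kind t p y) U := by
  have key : AnalyticOnNhd ℂ (fun z : Unit → ℂ => value Ω ty kind t p y (z ())) {z : Unit → ℂ | z () ∈ U} := by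
    rcases y with l | i | i
    · exact analytic_lift (h.analytic_t l)
    · exact analytic_lift (h.analytic_p i)
    · by_cases hk : kind i = true
      · have h1 : (fun z : Unit → ℂ => value Ω ty kind t p (Sum.inr (Sum.inr i)) (z ())) =
            N207.AX.yq Ω ty (fun i (z : Unit → ℂ) => p i (z ())) (Sum.inr (Sum.inl i)) := by
          funext z
          simp only [value, hk, if_true]
          rfl
        rw [h1]
        exact N207.AX.yq_an h.lift.analytic_p h.lift.notMem _
      · have h1 : (fun z : Unit → ℂ => value Ω ty kind t p (Sum.inr (Sum.inr i)) (z ())) =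
            N207.AX.yq Ω ty (fun i (z : Unit → ℂ) => p i (z ())) (Sum.inr (Sum.inr i)) := by
          funext z
          simp only [value, hk]
          rfl
        rw [h1]
        exact N207.AX.yq_an h.lift.analytic_p h.lift.notMem _
  have h2 : AnalyticOnNhd ℂ (fun (c : ℂ) (_ : Unit) => c) U := by
    intro c _
    rw [analyticAt_pi_iff]
    exact fun _ => analyticAt_id
  exact key.comp h2 fun c hc => hc

/-- **Theorem.** Let `ξ_0, ξ_1, …` be complex numbers, and let a sequence of families be given.
(1) Let `g ≥ 1`, `τ > 0`. There is a set `E ⊂ ℝ^g` of Hausdorff dimension at most `g / τ` (a null set if `τ > 1`) such that for all `ω`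
outside of `E` for which `X^g + ω_(g-1) X^(g-1) + … + ω_0` has simple roots, for every family such that the roots of this polynomial on
the boundary of `U` are real numbers near to which `U` has no real points, all `k` and `C`, for all large `T`, for all integral
`a_0, …, a_g` with `|a_i| ≤ T`, `a_g ≠ 0` and `|ω_i - a_i / a_g| ≤ C T^(-τ)`: the numbers `t_l(x)`, `p_i(x)` and `ζ(p_i(x))` (or
`℘(p_i(x))`) for all the roots `x` in `U` are unrelated.
(2) Let `g ≥ 1`, `τ > 0`. There is a set `E ⊂ ℂ` of Hausdorff dimension at most `g / τ` such that for all `x₀` outside of `E`, every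
family, all `k`, `C`, `R` and `η > 0`, for all large `T`, the same is true for all integral polynomials with coefficients at most `T`,
roots in position `(U, R, η)`, and a root within `C T^(-τ)` of `x₀`.
(3) There is a null set `N` of real numbers such that for all real `x₀` outside of `N`, all `g ≥ 1` and all `τ > g` the statement in (2) is
true. -/
theorem result (ξ : ℕ → ℂ) (q a n : ℕ → ℕ) (U : ℕ → Set ℂ) (Ω : ∀ s, Fin (q s) → PeriodPair) (ty : ∀ s, Fin (n s) → Fin (q s))
    (kind : ∀ s, Fin (n s) → Bool) (t : ∀ s, Fin (a s) → ℂ → ℂ) (p : ∀ s, Fin (n s) → ℂ → ℂ)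
    (h : ∀ s, Family (U s) (Ω s) (ty s) (kind s) (t s) (p s)) :
    (∀ (g : ℕ) (τ : ℝ), 0 < g → 0 < τ →
      ∃ E : Set (Fin g → ℝ), dimH E ≤ ENNReal.ofReal (g / τ) ∧ (1 < τ → volume E = 0) ∧
        ∀ ω ∉ E, (monic ω).Separable → ∀ s, Clear (U s) (monic ω) →
          ∀ (k : ℕ) (C : ℝ), ∀ᶠ T : ℝ in atTop, ∀ a' : Fin (g + 1) → ℤ, (∀ i, |(a' i : ℝ)| ≤ T) → a' (Fin.last g) ≠ 0 →
            (∀ i : Fin g, |ω i - (a' i.castSucc : ℝ) / a' (Fin.last g)| ≤ C * T ^ (-τ)) →
              Unrelated (U s) (value (Ω s) (ty s) (kind s) (t s) (p s)) ξ k T a') ∧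
    (∀ (g : ℕ) (τ : ℝ), 0 < g → 0 < τ →
      ∃ E : Set ℂ, dimH E ≤ ENNReal.ofReal (g / τ) ∧
        ∀ x₀ ∉ E, ∀ s, ∀ (k : ℕ) (C R η : ℝ), 0 < η → ∀ᶠ T : ℝ in atTop,
          ∀ a' : Fin (g + 1) → ℤ, (∀ i, |(a' i : ℝ)| ≤ T) → Position (U s) R η a' →
            (∃ z, (poly a').eval z = 0 ∧ ‖x₀ - z‖ ≤ C * T ^ (-τ)) →
              Unrelated (U s) (value (Ω s) (ty s) (kind s) (t s) (p s)) ξ k T a') ∧
    ∃ N : Set ℝ, volume N = 0 ∧ ∀ x₀ ∉ N, ∀ (g : ℕ) (τ : ℝ), 0 < g → (g : ℝ) < τ → ∀ s, ∀ (k : ℕ) (C R η : ℝ), 0 < η →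
      ∀ᶠ T : ℝ in atTop, ∀ a' : Fin (g + 1) → ℤ, (∀ i, |(a' i : ℝ)| ≤ T) → Position (U s) R η a' →
        (∃ z, (poly a').eval z = 0 ∧ ‖(x₀ : ℂ) - z‖ ≤ C * T ^ (-τ)) →
          Unrelated (U s) (value (Ω s) (ty s) (kind s) (t s) (p s)) ξ k T a' := by
  classical
  have part2 : ∀ (g : ℕ) (τ : ℝ), 0 < g → 0 < τ →
      ∃ E : Set ℂ, dimH E ≤ ENNReal.ofReal (g / τ) ∧
        ∀ x₀ ∉ E, ∀ s, ∀ (k : ℕ) (C R η : ℝ), 0 < η → ∀ᶠ T : ℝ in atTop,
          ∀ a' : Fin (g + 1) → ℤ, (∀ i, |(a' i : ℝ)| ≤ T) → Position (U s) R η a' →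
            (∃ z, (poly a').eval z = 0 ∧ ‖x₀ - z‖ ≤ C * T ^ (-τ)) →
              Unrelated (U s) (value (Ω s) (ty s) (kind s) (t s) (p s)) ξ k T a' := by
    intro g τ hg hτ
    choose E hE hE' using fun s : ℕ =>
      D0H63.AR.near_number hg (h s).isPreconnected (h s).isOpen (h s).analytic (h s).indep (U s) ξ hτ
    refine ⟨⋃ s, E s, ?_, fun x₀ hx s k C R η hη => ?_⟩
    · rw [dimH_iUnion]
      exact iSup_le hE
    · have h2 := hE' s x₀ (fun hh => hx (Set.mem_iUnion.2 ⟨_, hh⟩)) k C R η hη
      exact h2.mono fun T hT a' ha hpos hz => hT a' ha hpos hz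
  refine ⟨?_, part2, ?_⟩
  · intro g τ hg hτ
    choose E hE hE' using fun s : ℕ =>
      D0H63.AR.near_poly_open hg (h s).isPreconnected (h s).isOpen (h s).analytic (h s).indep ξ hτ
    have hdim : dimH (⋃ s, E s) ≤ ENNReal.ofReal (g / τ) := by
      rw [dimH_iUnion]
      exact iSup_le hE
    refine ⟨⋃ s, E s, hdim, fun h1 => ?_, fun ω hω hsep s hfr k C => ?_⟩
    · have hg' : (0 : ℝ) < g := by exact_mod_cast hg
      refine N251.LF.null_of_dim hdim ?_ (by rw [Fintype.card_fin]; exact hg)
      rw [Fintype.card_fin, div_lt_iff₀ hτ]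
      nlinarith
    · have h2 := hE' s ω (fun hh => hω (Set.mem_iUnion.2 ⟨_, hh⟩)) hsep hfr k C
      exact h2.mono fun T hT a' ha ha0 hclose => hT a' ha ha0 hclose
  · -- one null set
    choose E hE hE' using fun q : {q : ℕ × ℚ // 0 < q.1 ∧ (q.1 : ℝ) < (q.2 : ℝ)} =>
      part2 q.1.1 (q.1.2 : ℝ) q.2.1 (lt_trans (by exact_mod_cast q.2.1) q.2.2)
    refine ⟨⋃ q, {x : ℝ | (x : ℂ) ∈ E q}, ?_, fun x₀ hx g τ hg hτ s k C R η hη => ?_⟩
    · rw [measure_iUnion_null_iff]
      intro q
      refine D0H63.AR.null_line (hE q) ?_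
      have h1 : (0 : ℝ) < (q.1.1 : ℝ) := by exact_mod_cast q.2.1
      rw [div_lt_one (h1.trans q.2.2)]
      exact q.2.2
    · obtain ⟨τ', h1, h2⟩ := exists_rat_btwn hτ
      have h3 := hE' ⟨(g, τ'), hg, h1⟩ (x₀ : ℂ) (fun hh => hx (Set.mem_iUnion.2 ⟨_, hh⟩)) s k |C| R η hη
      filter_upwards [h3, eventually_ge_atTop (1 : ℝ)] with T hT hT1 a' ha hpos hz
      refine hT a' ha hpos ?_
      obtain ⟨z, hz, hzx⟩ := hz
      refine ⟨z, hz, hzx.trans ?_⟩
      have h4 : T ^ (-τ) ≤ T ^ (-((τ' : ℚ) : ℝ)) := Real.rpow_le_rpow_of_exponent_le hT1 (by linarith)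
      exact mul_le_mul (le_abs_self C) h4 (by positivity) (abs_nonneg C)

end Pool.Agent.Results.MP_c9768e_nt.ConjugateApproximations
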