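import Pool.Agent.D0H63.MR.NearPair
import Pool.Agent.D0H63.MR.HouseHt
import Pool.Agent.Results.MP_c9768e_nt.AlmostAllTuples

/-!
# Split semi-elliptic logarithms at ALL good approximations, over all number fields, of almost every complex tuple

The problem: if `e ^ (t_l)` (`l ≤ s`), `℘ (p_i)` (`i ≤ m`) and `ζ (p_i)` (`m < i ≤ n`) are algebraic, the `t_l` linearly
independent over `ℚ` and the `p_i` over `End`, the `s + n` numbers `t_l`, `p_i` should be algebraically independent. For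
`j = 1, …, n` let `q_j` be an analytic function on an open connected set `S_j` with `exp (q_j (t)) = t`, or
`℘_j (q_j (t)) = t`, or `ζ_j (q_j (t)) = t` (`℘_j`, `ζ_j` the functions of any lattice `L_j`, which may depend on `j`); thus the
`q_j (x_j)` for algebraic `x_j` are any of the logarithms of the problem.

Let `ξ` be a complex vector, `ξ_j` in `S_j`, and `K ⊂ ℂ` a number field. We consider ALL vectors `x` with coordinates in `K`
which are near to `ξ`: the `x_j = p_j / q` with integers `q ≠ 0`, `p_j` of `K` all the conjugates of which are at most `T`, with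
`|ξ_j - p_j / q| ≤ C T ^ (-σ [K : ℚ])`. By Minkowski's theorem there are such `x` for `σ = (1 + 1 / n) / 2` if `K` is not real and
for `σ = 1 + 1 / n` if `K` and `ξ` are real; for `K = ℚ` these are the best simultaneous approximations of a real `ξ`.

Theorem. For all `σ > 0` and all `ξ` in `S_1 × ⋯ × S_n` but a set of Hausdorff dimension at most `n / σ` the following is true: for
ALL number fields `K`, `L` in `ℂ`, all `d` and `A` there is a `B` such that for all `C` and all large `T`, for all these `x`, the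
`n + 1` numbers `π`, `q_j (x_j)` satisfy no relation, not even an approximate one up to `T ^ (-B)`, of degree at most `d` in each
number with coefficients in the integers of `L` with conjugates at most `T ^ A`. For `σ > 1 / 2` this is true for almost all `ξ`,
and for `σ > 1` for almost all real `ξ`. If the denominators of the `x_j` are arbitrary (`x_j = p_j / q_j`) the same is true with
the dimension `2 (n - 1) / σ`; for one number the exceptional set has the dimension `0` for every `σ > 0`.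

The starting file `AlmostAllTuples` covers the exceptional tuples of height at most `T` by `C T ^ ε` hypersurfaces of degree at
most `D`; this says nothing about the approximations of a given `ξ`, which are very sparse. The starting file
`ConvergentsOfRealTuples` has the rational approximations of real tuples, relations over `ℤ` and the dimension
`(2 (n - 1) + β) / τ` with a `β` near `2`. The proof here combines the hypersurfaces, for each denominator, with the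
Schwartz-Zippel lemma and with the lemma of Hausdorff and Cantelli.
-/

set_option autoImplicit false

namespace Pool.Agent.Results.MP_c9768e_nt.FieldApproximations

open Filter NumberField MeasureTheory MvPolynomial Pool.Agent
open AlmostAllTuples (zeta IsLog numbers Exceptional)
open Pool.Agent.Y124 (Cov)

/-- the points `x j = p j / q`, where `q ≠ 0` and the `p j` are integers of `K` all the conjugates of which are at most `T` -/
def Common {X : Type} (K : Type) [Field K] [NumberField K] (T : ℝ) : Set (X → K) :=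
  {x | ∃ (q : 𝓞 K) (p : X → 𝓞 K), q ≠ 0 ∧ house (q : K) ≤ T ∧ ∀ j, house (p j : K) ≤ T ∧ x j = (p j : K) / q}

/-- the points all the coordinates of which are quotients of integers of `K` all the conjugates of which are at most `T` -/
def Independent {X : Type} (K : Type) [Field K] [NumberField K] (T : ℝ) : Set (X → K) :=
  {x | ∀ j, ∃ p q : 𝓞 K, q ≠ 0 ∧ house (p : K) ≤ T ∧ house (q : K) ≤ T ∧ x j = (p : K) / q}

/-- Some nonzero polynomial of degree at most `d` in each variable, with coefficients in the integers of `L` all the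
conjugates of which are at most `T ^ A`, takes at the numbers `z` a value of absolute value at most `T ^ (-B)`. -/
def Related {n : ℕ} (L : IntermediateField ℚ ℂ) [NumberField L] (d : ℕ) (A B T : ℝ) (z : Option (Fin n) → ℂ) : Prop :=
  ∃ P : MvPolynomial (Option (Fin n)) (𝓞 L), P ≠ 0 ∧ (∀ i, P.degreeOf i ≤ d) ∧
    (∀ e, house ((P.coeff e : 𝓞 L) : L) ≤ T ^ A) ∧
    ‖MvPolynomial.eval₂ ((algebraMap L ℂ).comp (algebraMap (𝓞 L) L)) z P‖ ≤ T ^ (-B)

/-- For all number fields `K`, `L` in `ℂ`, all `d` and `A` there is a `B` such that for all `C` and all large `T`: for all the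
points `x` in `S K T` which are within `C T ^ (-σ [K : ℚ])` of `ξ` in each coordinate the numbers `π`, `q_j (x_j)` are not
related, not even approximately, over `L` in degree `d` and size `T ^ A`. -/
def Good {n : ℕ} (q : Fin n → ℂ → ℂ) (σ : ℝ) (S : ∀ (K : Type) [Field K] [NumberField K], ℝ → Set (Fin n → K))
    (ξ : Fin n → ℂ) : Prop :=
  ∀ (K L : IntermediateField ℚ ℂ) [NumberField K] [NumberField L] (d : ℕ) (A : ℝ), ∃ B : ℝ, ∀ C : ℝ,
    ∀ᶠ T : ℝ in atTop, ∀ x ∈ S K T, (∀ j, ‖ξ j - (x j : ℂ)‖ ≤ C * T ^ (-(σ * Module.finrank ℚ K))) →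
      ¬ Related L d A B T (numbers (algebraMap K ℂ) q x)

variable {n : ℕ}

/-- relations over `L` are exceptional over every larger field -/
theorem to_exceptional (q : Fin n → ℂ → ℂ) (Kc : Fin n → Set ℂ) (K L M : IntermediateField ℚ ℂ) [NumberField K]
    [NumberField L] [NumberField M] (hK : K ≤ M) (hL : L ≤ M) (d : ℕ) {A B R : ℝ} (hA : 0 ≤ A) (hR : 1 ≤ R) {x : Fin n → K}
    (hx : ∀ j, Y120.HtLe K R (x j)) (hxK : ∀ j, (x j : ℂ) ∈ Kc j)
    (hrel : Related L d A (B * Module.finrank ℚ M) R (numbers (algebraMap K ℂ) q x)) :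
    (fun j => IntermediateField.inclusion hK (x j)) ∈
      Exceptional (algebraMap M ℂ) d q Kc A B (R ^ Module.finrank ℚ M) := by
  obtain ⟨P, hP0, hPd, hPc, hPv⟩ := hrel
  have hR0 : 0 ≤ R := by linarith
  refine ⟨fun j => ⟨hxK j, ?_⟩, P.map ((IntermediateField.inclusion hL).toRingHom.comp (algebraMap (𝓞 L) L)), ?_, ?_, ?_, ?_⟩
  · obtain ⟨a, b, hb, ha, hb', he⟩ := D0H63.MR.htLe_map (IntermediateField.inclusion hK).toRingHom hR0 (hx j)
    have he' : IntermediateField.inclusion hK (x j) = (a : M) / b := he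
    show Height.mulHeight₁ (IntermediateField.inclusion hK (x j)) ≤ _
    rw [he']
    exact D0H63.MR.height_pair_le a b hb R ha hb'
  · intro h0
    apply hP0
    have hinj : Function.Injective ((IntermediateField.inclusion hL).toRingHom.comp (algebraMap (𝓞 L) L)) := by
      intro a b hab
      have h1 := (IntermediateField.inclusion hL).toRingHom.injective hab
      exact RingOfIntegers.ext h1
    exact MvPolynomial.map_injective _ hinj (by rw [h0, map_zero])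
  · intro i
    classical
    refine le_trans ?_ (hPd i)
    rw [MvPolynomial.degreeOf_def, MvPolynomial.degreeOf_def]
    exact Multiset.count_le_of_le i MvPolynomial.degrees_map_le
  · intro e
    rw [MvPolynomial.coeff_map]
    have h1 : ((IntermediateField.inclusion hL).toRingHom.comp (algebraMap (𝓞 L) L)) (P.coeff e) =
        ((RingOfIntegers.mapRingHom (IntermediateField.inclusion hL).toRingHom (P.coeff e) : 𝓞 M) : M) := rfl
    rw [h1]
    have hRA : 1 ≤ R ^ A := Real.one_le_rpow hR hA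
    refine (D0H63.MR.height_int_le _ (R ^ A) hRA ?_).trans (le_of_eq ?_)
    · refine Y120.house_le M (by linarith) fun φ => ?_
      exact (Y120.house_ge L ((P.coeff e : 𝓞 L) : L) (φ.comp (IntermediateField.inclusion hL).toRingHom)).trans (hPc e)
    · rw [← Real.rpow_natCast, ← Real.rpow_natCast, ← Real.rpow_mul hR0, ← Real.rpow_mul hR0, mul_comm]
  · have h1 : MvPolynomial.eval₂ (algebraMap M ℂ) (numbers (algebraMap M ℂ) q fun j => IntermediateField.inclusion hK (x j))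
        (P.map ((IntermediateField.inclusion hL).toRingHom.comp (algebraMap (𝓞 L) L))) =
        MvPolynomial.eval₂ ((algebraMap L ℂ).comp (algebraMap (𝓞 L) L)) (numbers (algebraMap K ℂ) q x) P := by
      rw [MvPolynomial.eval₂_map]
      have e1 : (algebraMap M ℂ).comp ((IntermediateField.inclusion hL).toRingHom.comp (algebraMap (𝓞 L) L)) =
          (algebraMap L ℂ).comp (algebraMap (𝓞 L) L) := RingHom.ext fun a => rfl
      have e2 : (numbers (algebraMap M ℂ) q fun j => IntermediateField.inclusion hK (x j)) =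
          numbers (algebraMap K ℂ) q x := by
        funext o
        cases o <;> rfl
      rw [e1, e2]
    rw [h1]
    refine hPv.trans (le_of_eq ?_)
    rw [← Real.rpow_natCast, ← Real.rpow_mul hR0]
    congr 1
    ring

/-- a cover with explicit bounds -/
theorem cov_of {M : Type} [Field M] (io : M →+* ℂ) {D : ℕ} {c : ℝ} {E : Set (Fin n → M)}
    {Φ : Finset (MvPolynomial (Fin n) M)} (h1 : (Φ.card : ℝ) ≤ c) (h2 : ∀ R ∈ Φ, R ≠ 0 ∧ R.totalDegree ≤ D)
    (h3 : ∀ x ∈ E, ∃ R ∈ Φ, MvPolynomial.eval x R = 0) :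
    Cov (max D ⌊c⌋₊) (max D ⌊c⌋₊) ((fun (e : Fin n → M) j => io (e j)) '' E) := by
  classical
  have hinj : Function.Injective io := io.injective
  refine ⟨Φ.image (MvPolynomial.map io), ?_, ?_, ?_⟩
  · refine Finset.card_image_le.trans (le_trans ?_ (le_max_right _ _))
    exact Nat.le_floor h1
  · intro P hP
    obtain ⟨R, hR, rfl⟩ := Finset.mem_image.1 hP
    refine ⟨fun h0 => (h2 R hR).1 (MvPolynomial.map_injective _ hinj (by rw [h0, map_zero])), ?_⟩
    have h4 : (MvPolynomial.map io R).totalDegree ≤ R.totalDegree := by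
      unfold MvPolynomial.totalDegree
      exact Finset.sup_mono (MvPolynomial.support_map_subset _ _)
    exact h4.trans ((h2 R hR).2.trans (le_max_left _ _))
  · rintro _ ⟨x, hx, rfl⟩
    obtain ⟨R, hR, h0⟩ := h3 x hx
    refine ⟨_, Finset.mem_image_of_mem _ hR, ?_⟩
    have h4 : MvPolynomial.eval (io ∘ x) (MvPolynomial.map io R) = io (MvPolynomial.eval x R) := by
      rw [MvPolynomial.eval_map, MvPolynomial.eval₂_comp]
    have h5 : MvPolynomial.eval (io ∘ x) (MvPolynomial.map io R) = 0 := by rw [h4, h0, map_zero]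
    exact h5

/-- one box, one field of coefficients, one degree, one exponent -/
theorem box {a : ℝ} (ha : 0 ≤ a) (S : ∀ (K : Type) [Field K] [NumberField K], ℝ → Set (Fin n → K))
    (hSht : ∀ (K : Type) [Field K] [NumberField K] (T : ℝ), ∀ x ∈ S K T, ∀ j, Y120.HtLe K T (x j))
    (hScount : ∀ (K : IntermediateField ℚ ℂ) [NumberField K], ∃ C : ℝ, 0 ≤ C ∧ ∀ (T : ℝ) (M : ℕ) (E : Set (Fin n → K)),
      1 ≤ T → Cov M M ((fun (e : Fin n → K) j => (e j : ℂ)) '' E) → E ⊆ S K T →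
        E.Finite ∧ (E.ncard : ℝ) ≤ C * (M : ℝ) ^ 2 * T ^ (a * Module.finrank ℚ K))
    (hn : 1 ≤ n) (L : Fin n → PeriodPair) (D : Fin n → Set ℂ) (hDo : ∀ j, IsOpen (D j)) (hDc : ∀ j, IsConnected (D j))
    (q : Fin n → ℂ → ℂ) (hq : ∀ j, AnalyticOnNhd ℂ (q j) (D j)) (hlog : ∀ j, IsLog (L j) (D j) (q j))
    (c : Fin n → ℂ) (r : Fin n → ℝ) (hcr : ∀ j, Metric.closedBall (c j) (r j) ⊆ D j) (F : IntermediateField ℚ ℂ)
    [NumberField F] (d : ℕ) (A : ℝ) (hA : 0 ≤ A) (ε₀ : ℝ) (hε₀ : 0 < ε₀) :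
    ∃ B : (K : IntermediateField ℚ ℂ) → ℝ, (∀ K, 0 ≤ B K) ∧ ∀ σ : ℝ, 0 < σ →
      ∃ E : Set (Fin n → ℂ), dimH E ≤ ENNReal.ofReal ((a + ε₀) / σ) ∧
        ∀ ξ ∈ {z : Fin n → ℂ | ∀ j, z j ∈ Metric.ball (c j) (r j)}, ξ ∉ E →
        ∀ (K : IntermediateField ℚ ℂ) [NumberField K] (C : ℝ), ∀ᶠ m : ℕ in atTop,
          ∀ x ∈ {x : Fin n → K | ∀ _ : NumberField K, x ∈ S K ((2 : ℝ) ^ m)},
            (∀ j, ‖ξ j - (x j : ℂ)‖ ≤ C * ((2 : ℝ) ^ m) ^ (-(σ * Module.finrank ℚ K))) →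
              ¬ Related F d A (B K) (2 ^ m) (numbers (algebraMap K ℂ) q x) := by
  classical
  -- the exponents
  have key : ∀ K : {K : IntermediateField ℚ ℂ // FiniteDimensional ℚ K}, ∃ B : ℝ, 0 ≤ B ∧ ∃ (Dg : ℕ) (Cc : ℝ), 0 ≤ Cc ∧
      ∀ m : ℕ, Cov (max Dg ⌊Cc * ((2 : ℝ) ^ m) ^ (ε₀ / 2)⌋₊) (max Dg ⌊Cc * ((2 : ℝ) ^ m) ^ (ε₀ / 2)⌋₊)
        ((fun (e : Fin n → K.1) j => (e j : ℂ)) '' {x : Fin n → K.1 | ∀ _ : NumberField K.1, x ∈ S K.1 ((2 : ℝ) ^ m) ∧
          (∀ j, (x j : ℂ) ∈ Metric.closedBall (c j) (r j)) ∧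
          Related F d A B (2 ^ m) (numbers (algebraMap K.1 ℂ) q x)}) := by
    rintro ⟨K, hK⟩
    have hNF : NumberField K := { to_charZero := inferInstance, to_finiteDimensional := hK }
    have hM := D0H63.MR.nf_sup K F
    have hfr : 0 < Module.finrank ℚ ↥(K ⊔ F) := Module.finrank_pos
    have hfr' : (0 : ℝ) < Module.finrank ℚ ↥(K ⊔ F) := by exact_mod_cast hfr
    obtain ⟨Dg, B, Cc, h⟩ := AlmostAllTuples.result ↥(K ⊔ F) (algebraMap ↥(K ⊔ F) ℂ) n d hn L D hDo hDc q hq hlog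
      (fun j => Metric.closedBall (c j) (r j)) (fun j => isCompact_closedBall _ _) hcr A
      (ε₀ / 2 / Module.finrank ℚ ↥(K ⊔ F)) (by positivity)
    refine ⟨|B| * Module.finrank ℚ ↥(K ⊔ F), by positivity, Dg, |Cc|, abs_nonneg _, fun m => ?_⟩
    have h2m : (1 : ℝ) ≤ 2 ^ m := one_le_pow₀ (by norm_num)
    obtain ⟨R, hRdef⟩ : ∃ R : ℝ, R = 2 ^ m := ⟨_, rfl⟩
    rw [← hRdef] at h2m ⊢
    have hR0 : 0 ≤ R := by linarith
    have hT1 : 1 ≤ R ^ Module.finrank ℚ ↥(K ⊔ F) := one_le_pow₀ h2m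
    obtain ⟨⟨Φ, h1, h2, h3⟩, -, -⟩ := h _ hT1
    have e1 : (R ^ Module.finrank ℚ ↥(K ⊔ F)) ^ (ε₀ / 2 / Module.finrank ℚ ↥(K ⊔ F)) = R ^ (ε₀ / 2) := by
      rw [← Real.rpow_natCast, ← Real.rpow_mul hR0, mul_div_cancel₀ _ hfr'.ne']
    rw [e1] at h1
    have h1' : (Φ.card : ℝ) ≤ |Cc| * R ^ (ε₀ / 2) :=
      h1.trans (mul_le_mul_of_nonneg_right (le_abs_self _) (by positivity))
    refine (cov_of (algebraMap ↥(K ⊔ F) ℂ) h1' h2 h3).mono le_rfl le_rfl ?_
    rintro _ ⟨x, hx, rfl⟩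
    obtain ⟨hxS, hxK, hxR⟩ := hx hNF
    have h4 := to_exceptional q (fun j => Metric.closedBall (c j) (r j)) K F (K ⊔ F) le_sup_left le_sup_right d hA h2m
      (hSht K R x hxS) hxK hxR
    refine ⟨fun j => IntermediateField.inclusion (le_sup_left : K ≤ K ⊔ F) (x j), ?_, ?_⟩
    · obtain ⟨hh1, P, hh2, hh3, hh4, hh5⟩ := h4
      refine ⟨hh1, P, hh2, hh3, hh4, hh5.trans ?_⟩
      exact Real.rpow_le_rpow_of_exponent_le hT1 (neg_le_neg (le_abs_self B))
    · funext j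
      rfl
  choose B hB0 Dg Cc hCc hcov using key
  refine ⟨fun K => if h : FiniteDimensional ℚ K then B ⟨K, h⟩ else 0, fun K => ?_, fun σ hσ => ?_⟩
  · by_cases h : FiniteDimensional ℚ K
    · simp only [dif_pos h]
      exact hB0 _
    · simp only [dif_neg h]
      exact le_rfl
  · have hU : IsOpen {z : Fin n → ℂ | ∀ j, z j ∈ Metric.ball (c j) (r j)} := by
      simp only [Set.setOf_forall]
      exact isOpen_iInter_of_finite fun j => Metric.isOpen_ball.preimage (continuous_apply j)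
    refine D0H63.MR.near_core {z : Fin n → ℂ | ∀ j, z j ∈ Metric.ball (c j) (r j)} hU (fun m => m) tendsto_id
      (a := a + ε₀) (by linarith) hσ (fun K m => {x | ∀ _ : NumberField K, x ∈ S K ((2 : ℝ) ^ m)})
      (fun K m z => ∀ x : Fin n → K, (fun j => (x j : ℂ)) = z → ∀ h : FiniteDimensional ℚ K,
        ¬ Related F d A (B ⟨K, h⟩) (2 ^ m) (numbers (algebraMap K ℂ) q x)) ?_ |>.imp fun E hE => ⟨hE.1, fun ξ hξ hξE K _ C => ?_⟩
    · intro K _ ε hε
      have hfd : FiniteDimensional ℚ K := inferInstance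
      obtain ⟨C, hC0, hC⟩ := hScount K
      have hK1 : (1 : ℝ) ≤ Module.finrank ℚ K := by exact_mod_cast Module.finrank_pos
      refine ⟨C * (Dg ⟨K, hfd⟩ + Cc ⟨K, hfd⟩) ^ 2, ?_⟩
      filter_upwards [eventually_ge_atTop 1] with m hm
      have h2m : (1 : ℝ) ≤ 2 ^ m := one_le_pow₀ (by norm_num)
      obtain ⟨M, hMdef⟩ : ∃ M : ℕ, M = max (Dg ⟨K, hfd⟩) ⌊Cc ⟨K, hfd⟩ * ((2 : ℝ) ^ m) ^ (ε₀ / 2)⌋₊ := ⟨_, rfl⟩
      have hcov' := hcov ⟨K, hfd⟩ m
      rw [← hMdef] at hcov'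
      obtain ⟨h3, h4⟩ := hC ((2 : ℝ) ^ m) M {e : Fin n → K | e ∈ {x | ∀ _ : NumberField K, x ∈ S K ((2 : ℝ) ^ m)} ∧
        (fun j => (e j : ℂ)) ∈ Y890.MV.InnerM {z : Fin n → ℂ | ∀ j, z j ∈ Metric.ball (c j) (r j)} m ∧
        ¬ ∀ x : Fin n → K, (fun j => (x j : ℂ)) = (fun j => (e j : ℂ)) → ∀ h : FiniteDimensional ℚ K,
          ¬ Related F d A (B ⟨K, h⟩) (2 ^ m) (numbers (algebraMap K ℂ) q x)} h2m
        (hcov'.mono le_rfl le_rfl (Set.image_mono (by
          rintro e ⟨h5, h6, h7⟩ hNF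
          refine ⟨h5 hNF, fun j => Metric.ball_subset_closedBall ((Y890.MV.innerM_sub _ (by omega) h6) j), ?_⟩
          push Not at h7
          obtain ⟨x, hx, h, hrel⟩ := h7
          have hxe : x = e := funext fun j => Subtype.ext (congrFun hx j)
          rw [hxe] at hrel
          exact hrel)))
        (fun e he => he.1 inferInstance)
      refine ⟨h3, h4.trans ?_⟩
      have hX : (0 : ℝ) ≤ ((2 : ℝ) ^ m) ^ (ε₀ / 2) := by positivity
      have hX1 : (1 : ℝ) ≤ ((2 : ℝ) ^ m) ^ (ε₀ / 2) := Real.one_le_rpow h2m (by linarith)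
      have hMle : (M : ℝ) ≤ (Dg ⟨K, hfd⟩ + Cc ⟨K, hfd⟩) * ((2 : ℝ) ^ m) ^ (ε₀ / 2) := by
        rw [hMdef, Nat.cast_max]
        have e1 := Nat.floor_le (mul_nonneg (hCc ⟨K, hfd⟩) hX)
        have e2 : (0 : ℝ) ≤ (Dg ⟨K, hfd⟩ : ℝ) := Nat.cast_nonneg _
        refine max_le ?_ ?_
        · nlinarith [mul_nonneg (hCc ⟨K, hfd⟩) hX]
        · nlinarith [mul_nonneg e2 hX]
      have hsq : (M : ℝ) ^ 2 ≤ (Dg ⟨K, hfd⟩ + Cc ⟨K, hfd⟩) ^ 2 * ((2 : ℝ) ^ m) ^ ε₀ := by
        calc (M : ℝ) ^ 2 ≤ ((Dg ⟨K, hfd⟩ + Cc ⟨K, hfd⟩) * ((2 : ℝ) ^ m) ^ (ε₀ / 2)) ^ 2 :=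
              pow_le_pow_left₀ (Nat.cast_nonneg _) hMle 2
          _ = (Dg ⟨K, hfd⟩ + Cc ⟨K, hfd⟩) ^ 2 * ((2 : ℝ) ^ m) ^ ε₀ := by
              rw [mul_pow, ← Real.rpow_natCast (((2 : ℝ) ^ m) ^ (ε₀ / 2)) 2, ← Real.rpow_mul (by positivity)]
              norm_num
      have hexp : ((2 : ℝ) ^ m) ^ ε₀ * ((2 : ℝ) ^ m) ^ (a * (Module.finrank ℚ K : ℝ)) ≤
          ((2 : ℝ) ^ m) ^ ((a + ε₀) * (Module.finrank ℚ K : ℝ) + ε) := by
        rw [← Real.rpow_add (by positivity)]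
        apply Real.rpow_le_rpow_of_exponent_le h2m
        nlinarith
      calc C * (M : ℝ) ^ 2 * ((2 : ℝ) ^ m) ^ (a * (Module.finrank ℚ K : ℝ)) ≤
            C * ((Dg ⟨K, hfd⟩ + Cc ⟨K, hfd⟩) ^ 2 * ((2 : ℝ) ^ m) ^ ε₀) * ((2 : ℝ) ^ m) ^ (a * (Module.finrank ℚ K : ℝ)) := by
              gcongr
        _ = C * (Dg ⟨K, hfd⟩ + Cc ⟨K, hfd⟩) ^ 2 * (((2 : ℝ) ^ m) ^ ε₀ * ((2 : ℝ) ^ m) ^ (a * (Module.finrank ℚ K : ℝ))) := by
              ring
        _ ≤ _ := mul_le_mul_of_nonneg_left hexp (by positivity)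
    · have hfd : FiniteDimensional ℚ K := inferInstance
      filter_upwards [hE.2 ξ hξ hξE K C] with m hm x hx hclose
      rw [dif_pos hfd]
      exact hm x hx hclose x rfl hfd

/-- closed discs with rational data -/
theorem exists_disc {D : Set ℂ} (hD : IsOpen D) {z : ℂ} (hz : z ∈ D) : ∃ b : ℚ × ℚ × ℚ,
    Metric.closedBall (((b.1 : ℝ) : ℂ) + ((b.2.1 : ℝ) : ℂ) * Complex.I) ((b.2.2 : ℚ) : ℝ) ⊆ D ∧
      z ∈ Metric.ball (((b.1 : ℝ) : ℂ) + ((b.2.1 : ℝ) : ℂ) * Complex.I) ((b.2.2 : ℚ) : ℝ) := by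
  obtain ⟨δ, hδ, hball⟩ := Metric.isOpen_iff.1 hD z hz
  obtain ⟨r, hr0, hr⟩ := exists_rat_btwn (half_pos hδ)
  obtain ⟨u, hu1, hu2⟩ := exists_rat_btwn (show z.re < z.re + r / 2 by linarith)
  obtain ⟨v, hv1, hv2⟩ := exists_rat_btwn (show z.im < z.im + r / 2 by linarith)
  have hd : dist z (((u : ℝ) : ℂ) + ((v : ℝ) : ℂ) * Complex.I) < r := by
    rw [dist_comm, dist_eq_norm]
    have h1 := Complex.norm_le_abs_re_add_abs_im ((((u : ℝ) : ℂ) + ((v : ℝ) : ℂ) * Complex.I) - z)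
    have e1 : ((((u : ℝ) : ℂ) + ((v : ℝ) : ℂ) * Complex.I) - z).re = u - z.re := by simp
    have e2 : ((((u : ℝ) : ℂ) + ((v : ℝ) : ℂ) * Complex.I) - z).im = v - z.im := by simp
    rw [e1, e2, abs_of_pos (by linarith), abs_of_pos (by linarith)] at h1
    linarith
  refine ⟨(u, v, r), ?_, ?_⟩
  · intro w hw
    apply hball
    rw [Metric.mem_closedBall] at hw
    rw [Metric.mem_ball]
    have h1 := dist_triangle_right w z (((u : ℝ) : ℂ) + ((v : ℝ) : ℂ) * Complex.I)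
    simp only at hw
    linarith
  · rw [Metric.mem_ball]
    exact hd

theorem kind {a : ℝ} (ha : 0 ≤ a) (S : ∀ (K : Type) [Field K] [NumberField K], ℝ → Set (Fin n → K))
    (hSmono : ∀ (K : Type) [Field K] [NumberField K] (T T' : ℝ), T ≤ T' → S K T ⊆ S K T')
    (hSht : ∀ (K : Type) [Field K] [NumberField K] (T : ℝ), ∀ x ∈ S K T, ∀ j, Y120.HtLe K T (x j))
    (hScount : ∀ (K : IntermediateField ℚ ℂ) [NumberField K], ∃ C : ℝ, 0 ≤ C ∧ ∀ (T : ℝ) (M : ℕ) (E : Set (Fin n → K)),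
      1 ≤ T → Cov M M ((fun (e : Fin n → K) j => (e j : ℂ)) '' E) → E ⊆ S K T →
        E.Finite ∧ (E.ncard : ℝ) ≤ C * (M : ℝ) ^ 2 * T ^ (a * Module.finrank ℚ K))
    (hn : 1 ≤ n) (L : Fin n → PeriodPair) (D : Fin n → Set ℂ) (hDo : ∀ j, IsOpen (D j)) (hDc : ∀ j, IsConnected (D j))
    (q : Fin n → ℂ → ℂ) (hq : ∀ j, AnalyticOnNhd ℂ (q j) (D j)) (hlog : ∀ j, IsLog (L j) (D j) (q j))
    {σ : ℝ} (hσ : 0 < σ) :
    ∃ E : Set (Fin n → ℂ), dimH E ≤ ENNReal.ofReal (a / σ) ∧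
      ∀ ξ ∈ {z : Fin n → ℂ | ∀ j, z j ∈ D j}, ξ ∉ E → Good q σ S ξ := by
  classical
  have hcf := Pool.Agent.N251.LF.countable_fields
  have key : ∀ (i : (Fin n → ℚ × ℚ × ℚ) × {F : IntermediateField ℚ ℂ // FiniteDimensional ℚ F} × ℕ × ℕ) (k : ℕ),
      ∃ (B : IntermediateField ℚ ℂ → ℝ) (E : Set (Fin n → ℂ)), (∀ K, 0 ≤ B K) ∧
        dimH E ≤ ENNReal.ofReal ((a + 1 / ((k : ℝ) + 1)) / σ) ∧
        ((∀ j, Metric.closedBall ((((i.1 j).1 : ℝ) : ℂ) + (((i.1 j).2.1 : ℝ) : ℂ) * Complex.I) (((i.1 j).2.2 : ℚ) : ℝ) ⊆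
          D j) →
        ∀ ξ : Fin n → ℂ, (∀ j, ξ j ∈ Metric.ball ((((i.1 j).1 : ℝ) : ℂ) + (((i.1 j).2.1 : ℝ) : ℂ) * Complex.I)
          (((i.1 j).2.2 : ℚ) : ℝ)) → ξ ∉ E →
        ∀ (_ : NumberField i.2.1.1) (K : IntermediateField ℚ ℂ) [NumberField K] (C : ℝ), ∀ᶠ m : ℕ in atTop,
          ∀ x ∈ {x : Fin n → K | ∀ _ : NumberField K, x ∈ S K ((2 : ℝ) ^ m)},
            (∀ j, ‖ξ j - (x j : ℂ)‖ ≤ C * ((2 : ℝ) ^ m) ^ (-(σ * Module.finrank ℚ K))) →
              ¬ Related i.2.1.1 i.2.2.1 i.2.2.2 (B K) (2 ^ m) (numbers (algebraMap K ℂ) q x)) := by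
    rintro ⟨b, ⟨F, hF⟩, d, A⟩ k
    have hNF : NumberField F := { to_charZero := inferInstance, to_finiteDimensional := hF }
    by_cases hb : ∀ j, Metric.closedBall ((((b j).1 : ℝ) : ℂ) + (((b j).2.1 : ℝ) : ℂ) * Complex.I)
        (((b j).2.2 : ℚ) : ℝ) ⊆ D j
    · obtain ⟨B, hB, h⟩ := box ha S hSht hScount hn L D hDo hDc q hq hlog
        (fun j => (((b j).1 : ℝ) : ℂ) + (((b j).2.1 : ℝ) : ℂ) * Complex.I) (fun j => (((b j).2.2 : ℚ) : ℝ)) hb F d A
        (Nat.cast_nonneg A) (1 / ((k : ℝ) + 1)) (by positivity)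
      obtain ⟨E, hE, h'⟩ := h σ hσ
      exact ⟨B, E, hB, hE, fun _ ξ hξ hξE _ => h' ξ hξ hξE⟩
    · exact ⟨fun _ => 0, ∅, fun _ => le_rfl, by rw [dimH_empty]; exact bot_le, fun h => absurd h hb⟩
  choose B E hB hE h using key
  refine ⟨⋃ i, ⋂ k, E i k, ?_, fun ξ hξ hξE => ?_⟩
  · rw [dimH_iUnion]
    refine iSup_le fun i => ?_
    have h0 : 0 ≤ a / σ := div_nonneg ha hσ.le
    refine Pool.Agent.N84.MD.dim_le_of_forall h0 fun Dd hDd => ?_
    rw [div_lt_iff₀ hσ] at hDd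
    obtain ⟨k, hk⟩ := exists_nat_one_div_lt (show 0 < Dd * σ - a by linarith)
    refine (dimH_mono (Set.iInter_subset _ k)).trans ((hE i k).trans (ENNReal.ofReal_le_ofReal ?_))
    rw [div_le_iff₀ hσ]
    linarith
  · intro K F _ _ d A
    obtain ⟨A', hA'⟩ := exists_nat_ge A
    have hb : ∀ j, ∃ b : ℚ × ℚ × ℚ, Metric.closedBall (((b.1 : ℝ) : ℂ) + ((b.2.1 : ℝ) : ℂ) * Complex.I)
        ((b.2.2 : ℚ) : ℝ) ⊆ D j ∧
        ξ j ∈ Metric.ball (((b.1 : ℝ) : ℂ) + ((b.2.1 : ℝ) : ℂ) * Complex.I) ((b.2.2 : ℚ) : ℝ) :=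
      fun j => exists_disc (hDo j) (hξ j)
    choose b hb1 hb2 using hb
    have hfd : FiniteDimensional ℚ F := inferInstance
    have h1 : ξ ∉ ⋂ k, E (b, ⟨F, hfd⟩, d, A') k := fun h => hξE (Set.mem_iUnion.2 ⟨_, h⟩)
    rw [Set.mem_iInter] at h1
    push Not at h1
    obtain ⟨k, hk⟩ := h1
    have h2 := h (b, ⟨F, hfd⟩, d, A') k hb1 ξ hb2 hk inferInstance K
    obtain ⟨B₀, hB₀⟩ : ∃ B₀, B₀ = B (b, ⟨F, hfd⟩, d, A') k K := ⟨_, rfl⟩
    have hB₀0 : 0 ≤ B₀ := hB₀ ▸ hB _ _ _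
    rw [← hB₀] at h2
    refine ⟨B₀ + 1, fun C => ?_⟩
    obtain ⟨κ, hκ⟩ : ∃ κ : ℝ, κ = σ * Module.finrank ℚ K := ⟨_, rfl⟩
    have hκ0 : 0 ≤ κ := by rw [hκ]; positivity
    filter_upwards [D0H63.MR.lv_tendsto.eventually (h2 (|C| * 2 ^ κ)), eventually_ge_atTop ((2 : ℝ) ^ B₀),
      eventually_ge_atTop 1] with T hT hTB hT1 x hx hclose hrel
    obtain ⟨h3, h4⟩ := D0H63.MR.lv_spec hT1
    have hT0 : 0 < T := by linarith
    rw [← hκ] at hT hclose
    refine hT x (fun _ => hSmono K T _ h3 hx) (fun j => (hclose j).trans ?_) ?_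
    · have h5 : T ^ (-κ) ≤ 2 ^ κ * ((2 : ℝ) ^ D0H63.MR.lv T) ^ (-κ) := by
        have h6 : ((2 : ℝ) * T) ^ (-κ) ≤ ((2 : ℝ) ^ D0H63.MR.lv T) ^ (-κ) :=
          Real.rpow_le_rpow_of_nonpos (by positivity) h4 (by linarith)
        rw [Real.mul_rpow (by norm_num) hT0.le, Real.rpow_neg (by norm_num : (0 : ℝ) ≤ 2)] at h6
        have h7 : (0 : ℝ) < 2 ^ κ := by positivity
        rw [inv_mul_le_iff₀ h7] at h6
        exact h6
      calc C * T ^ (-κ) ≤ |C| * T ^ (-κ) := mul_le_mul_of_nonneg_right (le_abs_self C) (by positivity)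
        _ ≤ |C| * (2 ^ κ * ((2 : ℝ) ^ D0H63.MR.lv T) ^ (-κ)) := mul_le_mul_of_nonneg_left h5 (abs_nonneg _)
        _ = _ := by ring
    · obtain ⟨P, hP0, hPd, hPc, hPv⟩ := hrel
      refine ⟨P, hP0, hPd, fun e => (hPc e).trans ?_, hPv.trans ?_⟩
      · calc T ^ A ≤ T ^ (A' : ℝ) := Real.rpow_le_rpow_of_exponent_le hT1 hA'
          _ ≤ ((2 : ℝ) ^ D0H63.MR.lv T) ^ (A' : ℝ) := Real.rpow_le_rpow hT0.le h3 (Nat.cast_nonneg _)
      · have h6 : ((2 : ℝ) * T) ^ (-B₀) ≤ ((2 : ℝ) ^ D0H63.MR.lv T) ^ (-B₀) :=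
          Real.rpow_le_rpow_of_nonpos (by positivity) h4 (by linarith)
        refine le_trans ?_ h6
        rw [neg_add, Real.rpow_add hT0, Real.mul_rpow (by norm_num) hT0.le, Real.rpow_neg_one, mul_comm]
        refine mul_le_mul_of_nonneg_right ?_ (by positivity)
        rw [Real.rpow_neg (by norm_num : (0 : ℝ) ≤ 2)]
        exact inv_anti₀ (by positivity) hTB

/-- **Theorem.** Let `n ≥ 1`, let `L_1, …, L_n` be lattices, `D_j` open connected subsets of `ℂ` and `q_j` analytic on `D_j` and a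
logarithm of one of the three kinds. For all `σ > 0`: (a) all `ξ` in `D_1 × ⋯ × D_n` but a set of Hausdorff dimension at most
`n / σ` are good for the points with a common denominator (`Common`), in particular almost all `ξ` in `D_1 × ⋯ × D_n` if
`σ > 1 / 2` and almost all real `ξ` in `D_1 × ⋯ × D_n` if `σ > 1`; (b) all `ξ` in `D_1 × ⋯ × D_n` but a set of dimension at most
`2 (n - 1) / σ` are good for the points with arbitrary denominators (`Independent`), in particular almost all `ξ` if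
`σ > (n - 1) / n` and almost all real `ξ` if `σ > 2 (n - 1) / n`. -/
theorem result (n : ℕ) (hn : 1 ≤ n) (L : Fin n → PeriodPair) (D : Fin n → Set ℂ) (hDo : ∀ j, IsOpen (D j))
    (hDc : ∀ j, IsConnected (D j)) (q : Fin n → ℂ → ℂ) (hq : ∀ j, AnalyticOnNhd ℂ (q j) (D j))
    (hlog : ∀ j, IsLog (L j) (D j) (q j)) (σ : ℝ) (hσ : 0 < σ) :
    (dimH {ξ : Fin n → ℂ | (∀ j, ξ j ∈ D j) ∧ ¬ Good q σ (fun K _ _ T => Common K T) ξ} ≤ ENNReal.ofReal (n / σ) ∧
      (1 / 2 < σ → ∀ᵐ ξ : Fin n → ℂ, (∀ j, ξ j ∈ D j) → Good q σ (fun K _ _ T => Common K T) ξ) ∧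
      (1 < σ → ∀ᵐ ξ : Fin n → ℝ, (∀ j, (ξ j : ℂ) ∈ D j) →
        Good q σ (fun K _ _ T => Common K T) fun j => (ξ j : ℂ))) ∧
    (dimH {ξ : Fin n → ℂ | (∀ j, ξ j ∈ D j) ∧ ¬ Good q σ (fun K _ _ T => Independent K T) ξ} ≤
        ENNReal.ofReal (2 * ((n : ℝ) - 1) / σ) ∧
      (((n : ℝ) - 1) / n < σ → ∀ᵐ ξ : Fin n → ℂ, (∀ j, ξ j ∈ D j) →
        Good q σ (fun K _ _ T => Independent K T) ξ) ∧
      (2 * ((n : ℝ) - 1) / n < σ → ∀ᵐ ξ : Fin n → ℝ, (∀ j, (ξ j : ℂ) ∈ D j) →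
        Good q σ (fun K _ _ T => Independent K T) fun j => (ξ j : ℂ))) := by
  classical
  have hne : Nonempty (Fin n) := ⟨⟨0, hn⟩⟩
  have hd' : (1 : ℝ) ≤ n := by exact_mod_cast hn
  have hd0 : (0 : ℝ) < n := by linarith
  obtain ⟨E, hE1, hE2⟩ := kind (a := n) (by linarith) (fun K _ _ T => Common K T) (by
      rintro K _ _ T T' hTT x ⟨q, p, hq, hqT, hp⟩
      exact ⟨q, p, hq, hqT.trans hTT, fun j => ⟨(hp j).1.trans hTT, (hp j).2⟩⟩)
    (fun K _ _ T x hx j => D0H63.MR.common_ht hx j) (by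
      intro K _
      have h := D0H63.MR.count_common (X := Fin n) K (algebraMap K ℂ)
      rw [Fintype.card_fin] at h
      exact h) hn L D hDo hDc q hq hlog hσ
  obtain ⟨E', hE'1, hE'2⟩ := kind (a := 2 * ((n : ℝ) - 1)) (by linarith) (fun K _ _ T => Independent K T) (by
      rintro K _ _ T T' hTT x hx j
      obtain ⟨p, q, hq, hp, hqT, he⟩ := hx j
      exact ⟨p, q, hq, hp.trans hTT, hqT.trans hTT, he⟩)
    (fun K _ _ T x hx j => by
      obtain ⟨p, q, hq, hp, hqT, he⟩ := hx j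
      exact ⟨p, q, hq, hp, hqT, he⟩) (by
      intro K _
      obtain ⟨C, hC, h⟩ := D0H63.MR.count_ht (X := Fin n) K (algebraMap K ℂ)
      rw [Fintype.card_fin] at h
      refine ⟨C, hC, fun T M E hT hcov hE => h T M E hT hcov fun x hx j => ?_⟩
      obtain ⟨p, q, hq, hp, hqT, he⟩ := hE hx j
      exact ⟨p, q, hq, hp, hqT, he⟩) hn L D hDo hDc q hq hlog hσ
  have h0 : (0 : ℝ) ≤ 2 * ((n : ℝ) - 1) := by linarith
  refine ⟨?_, ?_⟩
  · obtain ⟨h1, h2, h3⟩ := D0H63.MR.ae_of_dim (by positivity) hE1 hE2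
    rw [Fintype.card_fin] at h2 h3
    refine ⟨h1, fun h4 => h2 ?_, fun h4 => h3 ?_⟩
    · rw [div_lt_iff₀ hσ]
      nlinarith
    · rw [div_lt_iff₀ hσ]
      nlinarith
  · obtain ⟨h1, h2, h3⟩ := D0H63.MR.ae_of_dim (div_nonneg h0 hσ.le) hE'1 hE'2
    rw [Fintype.card_fin] at h2 h3
    refine ⟨h1, fun h4 => h2 ?_, fun h4 => h3 ?_⟩
    · rw [div_lt_iff₀ hσ]
      rw [div_lt_iff₀ hd0] at h4
      linarith
    · rw [div_lt_iff₀ hσ]
      rw [div_lt_iff₀ hd0] at h4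
      linarith

end Pool.Agent.Results.MP_c9768e_nt.FieldApproximations
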