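import Pool.Agent.D0H4.Lv.FinalB
import Pool.Agent.D0H4.Tr.Final3

/-!
# Polynomials in combinations of logarithms with values in the space of all linear forms in logarithms, at every level

The problem asks for the algebraic independence of `ℚ`-linearly independent logarithms `t_l` of algebraic numbers and of
elliptic logarithms `p_i`. Let `LogForms` be the space of all linear combinations, with algebraic coefficients, of `1` and
logarithms of algebraic numbers, and `Values p` the space spanned by `LogForms` and by given complex numbers `p_1, …, p_g`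
(for instance elliptic logarithms). Let `λ_1, …, λ_s` be elements of `LogForms` which are together with `1` linearly
independent over `ℚ̄` (for instance `ℚ`-linearly independent logarithms of algebraic numbers), and `β` an ARBITRARY
complex vector. For integral vectors `x_k` in `ℤ ^ n` we consider the `n` numbers

  `y_i = β_i + ∑_k λ_k x_{k i}`.

Let `Ω` be a `ℚ̄`-space spanned by `m` ARBITRARY complex numbers `ω_t`, with `1 ∈ Ω`, for instance by the monomials of
bounded degree in elliptic logarithms, and `Class D ω` the set of the polynomials in `n` variables of degree at most `D` in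
each variable and with coefficients in `Ω`. If the conjecture holds (for `1, p` and all logarithms, and `Ω` the space of
the monomials in the `p_i`), a polynomial `P` of this class has a value `P(y)` in `Values p` only for the evident reason
that it is affine, with algebraic slopes, on the smallest flat through `y` which is predicted by the linear relations
between the `y_i`. We prove this up to exponents which do not depend on the number `s` of the logarithms, for all
polynomials of the class at once.

1. There is a constant `C` which depends only on `s`, `n`, `m`, `g`, `D`, `e` (not on `λ`, `β`, `ω`, `p`), such that for all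
   but `C M ^ (s e + c)` of the `x` with entries at most `M` in absolute value there is a subspace `U` of `ℚ ^ n` of
   dimension `e + 1` with: every `P` of the class with `P(y) ∈ Values p` is affine on `y + U_ℂ`, that is
   `P(y + ∑_a z_a w_a) = P(y) + ∑_a c_a z_a` for a basis `w_a` of `U` and all complex `z_a`, with algebraic slopes `c_a`,
   and `P = 0` on `y + U_ℂ` if `P(y) = 0`. Here `c = n (n + m (D + 1) ^ n + g + 1) ^ 2`.
2. If a vector `v` has such a space `U` of dimension `f` there are `f` among its coordinates, `v_j` with `j` in `J`, such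
   that the polynomials of the class in these coordinates with `P(v) ∈ Values p` are linear with algebraic
   coefficients, up to the constant term, and `P = 0` if `P(v) = 0` (`OnlyLinear`): so these `v_j` are algebraically
   independent up to degree `D` over `Ω`, and satisfy only linear relations modulo linear forms in arbitrary
   logarithms and in `p_1, …, p_g`.
3. The exponents are sharp up to `c`: if `β = 0` there are at least `(2 M + 1) ^ (s e)` tuples `x` for which no `e + 1` of
   the `y_i` have this property, if `e ≤ n` and `D ≥ 1`.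
4. The same for algebraic vectors `b_k` in place of the `x_k`: those for which there is no `U ⊆ ℚ̄ ^ n` as in (1) have
   dimension at most `s e + c`, in the sense that the values of more than `s e + c` linear forms in `b` satisfy a
   polynomial relation, of degree bounded in terms of `s`, `n`, `m`, `g`, `D`, `e` and the number of the forms.

Known before (starting files). The case `e = n - 1` of (2): `MP_60829e_nt.GenericOnlyLinear`, `LinearInArbitraryLogs`,
`MP_c9768e_nt.ArbitraryEllipticLogs`. For all `e`, but only for the zeros of polynomials and with a constant which depends on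
all the data: `MP_60829e_nt.TranslatesInVarieties` (families of varieties; with the coefficients of the polynomials as
parameters it gives flats over `ℚ̄` for single relations). New are the values in `Values p`, the uniformity of the
constant, the rational spaces `U` common to all polynomials of the class, and the free coordinates.

Proof. Let `G` be a complex vector and `Ω'` a `ℚ̄`-space of dimension `m'`. By the strong six exponentials theorem of
D. Roy (in the form `Pool.Agent.TH160.TowP.range_le` of the starting library) there is a set `K` of at most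
`(n + m' + g + 1) ^ 2` indices such that `∑_k λ_k (G · x_k) ∈ Ω' + Values p` and `G · x_k ∈ ℚ̄` for `k` in `K` imply
`G · x_k ∈ ℚ̄` for all `k` (`Col3`). Consider a generic point `b` of the exceptional set in an ultrapower of `ℂ` and the
derivations which vanish on `ℂ` and preserve the ultrapowers of `ℚ` and `ℚ̄`. They preserve the ultrapower of every
finite dimensional space over `ℚ̄`; so the derivatives of a value `P(y)` in `Values p` are in the ultrapower of this
space. Let `U` be a space of smallest dimension which contains all the vectors `D b_k`, for the `D` of a space of small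
codimension (a decrease of the dimension of `U` by `r` may increase the codimension by `c r / n`). By the minimality the
derivatives `∂_u P(y)`, `u` in `U`, are algebraic numbers `c_u`, and `∂_u P - c_u` is a polynomial of the class which
vanishes at `y`; by induction the polynomials of the class which vanish at `y` vanish on `y + U`. The uniformity is
proved with ultraproducts, and the counting with the starting library (`Pool.Agent.R350`).
-/

set_option autoImplicit false

namespace Pool.Agent.Results.MP_c9768e_nt.OnlyLinearOnFlats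

open MvPolynomial

/-- the linear combinations, with algebraic coefficients, of `1` and logarithms of algebraic numbers -/
noncomputable def LogForms : Submodule (algebraicClosure ℚ ℂ) ℂ :=
  Submodule.span (algebraicClosure ℚ ℂ) ({1} ∪ {z : ℂ | IsAlgebraic ℚ (Complex.exp z)})

/-- the space spanned by `LogForms` and the numbers `p_1, …, p_g` -/
noncomputable def Values {g : ℕ} (p : Fin g → ℂ) : Submodule (algebraicClosure ℚ ℂ) ℂ :=
  LogForms ⊔ Submodule.span (algebraicClosure ℚ ℂ) (Set.range p)

/-- the numbers `y_i = β_i + ∑_k λ_k x_{k i}` -/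
noncomputable def point {s n : ℕ} (l : Fin s → ℂ) (β : Fin n → ℂ) (x : Fin s → Fin n → ℤ) : Fin n → ℂ :=
  fun i => β i + ∑ k, l k * (x k i : ℂ)

/-- the polynomials of degree at most `D` in each variable whose coefficients are combinations of the `ω_t` with algebraic
coefficients -/
def Class (D : ℕ) {m n : ℕ} (ω : Fin m → ℂ) : Set (MvPolynomial (Fin n) ℂ) :=
  {P | (∀ i, P.degreeOf i ≤ D) ∧ ∀ γ, P.coeff γ ∈ Submodule.span (algebraicClosure ℚ ℂ) (Set.range ω)}

/-- for some subspace `U` of dimension `f` of `κ ^ n`, with the basis `w`, all the polynomials of the class with a value in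
`Values p` at `v` are affine on `v + U_ℂ`, with algebraic slopes `c_a`, and zero there if they vanish at `v` -/
def Flat (κ : Type) [Field κ] [Algebra κ ℂ] (D : ℕ) {g m n : ℕ} (p : Fin g → ℂ) (ω : Fin m → ℂ) (f : ℕ)
    (v : Fin n → ℂ) : Prop :=
  ∃ w : Fin f → Fin n → κ, LinearIndependent κ w ∧ ∀ P ∈ Class D ω, eval v P ∈ Values p →
    ∃ c : Fin f → algebraicClosure ℚ ℂ, (eval v P = 0 → c = 0) ∧ ∀ z : Fin f → ℂ,
      eval (fun i => v i + ∑ a, z a * algebraMap κ ℂ (w a i)) P = eval v P + ∑ a, z a * (c a : ℂ)

/-- the polynomials of the class in the variables `X_j`, `j` in `J`, with a value in `Values p` at `v` are linear with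
algebraic coefficients, up to the constant term, and those which vanish at `v` are zero -/
def OnlyLinear (D : ℕ) {g m n : ℕ} (p : Fin g → ℂ) (ω : Fin m → ℂ) (J : Finset (Fin n)) (v : Fin n → ℂ) : Prop :=
  ∀ P ∈ Class D ω, P.vars ⊆ J → eval v P ∈ Values p → (eval v P = 0 → P = 0) ∧
    ∃ (c₀ : ℂ) (c : Fin n → algebraicClosure ℚ ℂ), P = MvPolynomial.C c₀ + ∑ j ∈ J, MvPolynomial.C (c j : ℂ) * X j

/-- **Main result.** -/
theorem result :
    (∀ s n m g D e : ℕ, ∃ C : ℕ, ∀ l : Fin s → ℂ, (∀ k, l k ∈ LogForms) →
      LinearIndependent (algebraicClosure ℚ ℂ) (Fin.cons 1 l : Fin (s + 1) → ℂ) →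
      ∀ (p : Fin g → ℂ) (β : Fin n → ℂ) (ω : Fin m → ℂ),
      (1 : ℂ) ∈ Submodule.span (algebraicClosure ℚ ℂ) (Set.range ω) → ∀ M : ℕ, 1 ≤ M →
      Set.ncard {x : Fin s → Fin n → ℤ | (∀ k i, |x k i| ≤ M) ∧ ¬ Flat ℚ D p ω (e + 1) (point l β x)} ≤
        C * M ^ (s * e + n * (n + m * (D + 1) ^ n + g + 1) ^ 2) ∧
      Set.ncard {x : Fin s → Fin n → ℤ | (∀ k i, |x k i| ≤ M) ∧
        ∀ J : Finset (Fin n), J.card = e + 1 → ¬ OnlyLinear D p ω J (point l β x)} ≤
        C * M ^ (s * e + n * (n + m * (D + 1) ^ n + g + 1) ^ 2)) ∧
    (∀ (n m g D f : ℕ) (p : Fin g → ℂ) (ω : Fin m → ℂ) (v : Fin n → ℂ), Flat ℚ D p ω f v →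
      ∃ J : Finset (Fin n), J.card = f ∧ OnlyLinear D p ω J v) ∧
    (∀ (s n m g D e : ℕ) (p : Fin g → ℂ) (ω : Fin m → ℂ) (l : Fin s → ℂ) (M : ℕ), e ≤ n → 1 ≤ D →
      (1 : ℂ) ∈ Submodule.span (algebraicClosure ℚ ℂ) (Set.range ω) →
      (2 * M + 1) ^ (s * e) ≤ Set.ncard {x : Fin s → Fin n → ℤ | (∀ k i, |x k i| ≤ M) ∧
        ∀ J : Finset (Fin n), J.card = e + 1 → ¬ OnlyLinear D p ω J (point l 0 x)}) ∧
    (∀ s n m g D e S : ℕ, s * e + n * (n + m * (D + 1) ^ n + g + 1) ^ 2 < S →
      ∃ E : ℕ, ∀ l : Fin s → ℂ, (∀ k, l k ∈ LogForms) →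
      LinearIndependent (algebraicClosure ℚ ℂ) (Fin.cons 1 l : Fin (s + 1) → ℂ) →
      ∀ (p : Fin g → ℂ) (β : Fin n → ℂ) (ω : Fin m → ℂ),
      (1 : ℂ) ∈ Submodule.span (algebraicClosure ℚ ℂ) (Set.range ω) →
      ∀ φ : Fin S → Fin s × Fin n → algebraicClosure ℚ ℂ,
      ∃ Δ : MvPolynomial (Fin S) (algebraicClosure ℚ ℂ), Δ ≠ 0 ∧ Δ.totalDegree ≤ E ∧
        ∀ b : Fin s × Fin n → algebraicClosure ℚ ℂ,
          ¬ Flat (algebraicClosure ℚ ℂ) D p ω (e + 1) (fun i => β i + ∑ k, l k * (b (k, i) : ℂ)) →
          eval (fun q => ∑ x, φ q x * b x) Δ = 0) := by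
  have hfin : ∀ (s n M : ℕ) (A : (Fin s → Fin n → ℤ) → Prop),
      ({x : Fin s → Fin n → ℤ | (∀ k i, |x k i| ≤ M) ∧ A x}).Finite := by
    intro s n M A
    have h1 : ((Fintype.piFinset fun _ : Fin s => Fintype.piFinset fun _ : Fin n =>
        Finset.Icc (-(M : ℤ)) M : Finset (Fin s → Fin n → ℤ)) : Set (Fin s → Fin n → ℤ)).Finite :=
      Finset.finite_toSet _
    refine h1.subset fun A hA => ?_
    rw [Finset.mem_coe, Fintype.mem_piFinset]
    intro i
    rw [Fintype.mem_piFinset]
    intro j
    rw [Finset.mem_Icc, ← abs_le]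
    exact hA.1 i j
  have hflat : ∀ (n m g D f : ℕ) (p : Fin g → ℂ) (ω : Fin m → ℂ) (v : Fin n → ℂ), Flat ℚ D p ω f v →
      ∃ J : Finset (Fin n), J.card = f ∧ OnlyLinear D p ω J v := by
    intro n m g D f p ω v h
    exact Pool.Agent.D0H4.Lv.onlyLin_of_good (κ := ℚ) (L := Values p) (Q := Class D ω) h
  refine ⟨fun s n m g D e => ?_, hflat, fun s n m g D e p ω l M he hD h1 => ?_, fun s n m g D e S hS => ?_⟩
  · obtain ⟨C, hC⟩ := Pool.Agent.D0H4.Lv.count_finalB s n m g D e
    refine ⟨C, fun l hl hli p β ω h1 M hM => ?_⟩
    have h2 : Set.ncard {x : Fin s → Fin n → ℤ | (∀ k i, |x k i| ≤ M) ∧ ¬ Flat ℚ D p ω (e + 1) (point l β x)} ≤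
        C * M ^ (s * e + n * (n + m * (D + 1) ^ n + g + 1) ^ 2) := hC l hl hli p β ω h1 M hM
    refine ⟨h2, le_trans (Set.ncard_le_ncard ?_ (hfin _ _ _ _)) h2⟩
    rintro x ⟨h3, h4⟩
    refine ⟨h3, fun h5 => ?_⟩
    obtain ⟨J, hJ, hJ2⟩ := hflat _ _ _ _ _ _ _ _ h5
    exact h4 J hJ hJ2
  · refine le_trans (Pool.Agent.D0H4.Tr.lower3 (n := n) he hD ω h1 l M) (Set.ncard_le_ncard ?_ (hfin _ _ _ _))
    rintro x ⟨h3, h4⟩
    refine ⟨h3, fun J hJ hJ2 => h4 J hJ (fun P hP1 hP2 hP3 hP4 => ?_)⟩
    have h5 : point l 0 x = fun i => ∑ k, l k * (x k i : ℂ) := by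
      funext i
      rw [point, Pi.zero_apply, zero_add]
    rw [h5] at hJ2
    exact (hJ2 P ⟨hP1, hP2⟩ hP3 (by rw [hP4]; exact Submodule.zero_mem _)).1 hP4
  · obtain ⟨E, hE⟩ := Pool.Agent.D0H4.Lv.dim_finalB s n m g D e S hS
    exact ⟨E, fun l hl hli p β ω h1 φ => hE l hl hli p β ω h1 φ⟩

end Pool.Agent.Results.MP_c9768e_nt.OnlyLinearOnFlats
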