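import Pool.Agent.D0H4.Lv.FinalK

/-!
# Zeros of arbitrary complex polynomials, and values which are linear forms in logarithms and elliptic logarithms, lie on flats

The problem asks for the algebraic independence of `ℚ`-linearly independent logarithms `t_l` of algebraic numbers and of
elliptic logarithms `p_i`. Let `K` be a subfield of `ℂ` which is algebraic over `ℚ` (for instance `ℚ`, a number field, or
`ℚ̄`), `LogForms K` the space of all linear combinations, with coefficients in `K`, of `1` and logarithms of algebraic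
numbers, and `Values K p` the `K`-space spanned by `LogForms K` and by given complex numbers `p_1, …, p_g` (for instance
elliptic logarithms). Let `λ_1, …, λ_s` be elements of `LogForms K` (for instance `ℚ`-linearly independent logarithms of
algebraic numbers), `β` and `q_1, …, q_m` ARBITRARY complex numbers (for instance `q = p`), and `F_1, …, F_r` ARBITRARY
complex polynomials in `n` variables and `τ` parameters. We consider the `n`-tuples

  `y = β + ∑_k λ_k x_k + ∑_j q_j x'_j`, `x_k`, `x'_j` in `ℤ ^ n`,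

the zeros of the polynomials `F_j(·, t)`, and their values which are in `Values K p`, for parameters `t` in `K ^ τ`.
There are evident reasons for such zeros and values: if `F_j(·, t)` vanishes (is affine with slopes in `K`) on a flat
`y + U_ℂ`, `U ⊆ K ^ n`, then it is zero (its values differ by elements of `LogForms K`) at the points of this flat with
logarithmic coordinates. We prove that there is no other reason, up to exponents which do not depend on the number `s` of
the logarithms and on the degree.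

1. Zeros: let `λ_1, …, λ_s` be linearly independent over `K`. The number of the `(x, x')` with entries at most `M` in
   absolute value, such that for SOME parameter `t` in `K ^ τ` there is no subspace `U ⊆ K ^ n` of dimension `e + 1` such
   that all the `F_j(·, t)` which vanish at `y` vanish on `y + U_ℂ`, is at most
   `C M ^ (s e + m n + (n - e) (n - 1) + τ)`.
2. Values: let `1, λ_1, …, λ_s` be linearly independent over `K`. The number of the `(x, x')` with entries at most `M`, such
   that for SOME parameter `t` in `K ^ τ` there is no subspace `U ⊆ K ^ n` of dimension `e + 1` such that all the `F_j(·, t)`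
   with `F_j(y, t)` in `Values K p` are affine on `y + U_ℂ` with slopes in `K` (and zero if they vanish at `y`), is at most
   `C M ^ (s e + m n + (n - e) (n + g ^ 2 + 3 g + 1) + τ)`.
   Here `C` depends only on `K`, `s`, `m`, `n`, `τ`, `g`, `r`, `e` and the degree of the polynomials: not on `λ`, `q`, `p`,
   `β`, on the coefficients and on `t`. For `e = 0`, `m = τ = 0`: all but `C M ^ (n (n + g ^ 2 + 3 g + 1))` of the
   `(2 M + 1) ^ (s n)` points `y` are on a line over `K` on which all the `F_j` with values in `Values K p` are affine.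
3. For values in `Values ℚ̄ p` and RATIONAL flats (`U ⊆ ℚ ^ n`, `t` in `ℚ ^ τ`, slopes in `ℚ̄`) the same is true with
   `n ((n + g + 1) ^ 2 + n)` in place of `(n - e) (n + g ^ 2 + 3 g + 1)`.
4. The same as 1 and 2 for `y = β + ∑_k λ_k b_k` with vectors `b_k` in `K ^ n`: the dimension of the set of the exceptional
   points is at most the exponent in 1, 2 (`m = 0`), that is, more linear forms in `b` than this exponent satisfy a
   polynomial relation of bounded degree at these points.
5. The exponents are sharp up to the term which does not depend on `s`, for zeros: if polynomials `P_j` vanish on a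
   rational flat of dimension `f` through `β`, there are at least `c M ^ (s f)` zeros of the form `β + ∑_k λ_k x_k`.

So for a system of polynomials without flats of dimension `e + 1` over `K` in its zero set (without translates of
spaces over `K` on which all the polynomials are affine) there are at most `C M ^ (s e + (n - e) (n - 1))` zeros
(`C M ^ (s e + (n - e) (n + g ^ 2 + 3 g + 1))` points `y` at which all the values are in `Values K p`).

Known before (starting files): `MP_60829e_nt.TranslatesInVarieties` is 1 and the part of 4 on zeros for `K = ℚ`, `ℚ̄`, with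
a constant `C` which depends on all the data: on the logarithms and on the coefficients; the case `e = n - 1` for the
values of polynomials with algebraic coefficients is `MP_60829e_nt.GenericOnlyLinear`. That a value is in `Values K p` is
not an algebraic condition on `y`. `OnlyLinearOnFlats` (this problem) is about all polynomials with coefficients in a
finite dimensional space at once, with exponents which depend on the degree; here the polynomials are fixed, and the
exponents do not depend on the degree and on `r`.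

Proof. The hyperplane case of the theorem of M. Waldschmidt and D. Roy (in the starting library; `hyp_LK`: from number
fields to all algebraic fields) says: `d` numbers which are linearly independent over `K` are orthogonal to at most
`d (d - 1)` independent vectors with coordinates in `LogForms K`. This property is preserved by ultraproducts
(`Pool.Agent.D0H4.Lv.hyp_LI`). It follows (`hyp_count3`) that for complex numbers `G_1, …, G_v` which are linearly
independent over `K` modulo `K` the vectors `x_1, …, x_s` in `K ^ v` with `∑_k λ_k (G · x_k)` in `Values K p` are in a space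
of dimension at most `(v + g + 1) (v + g)`. Consider a generic point `b` of the exceptional set in an ultrapower of
`ℂ`, the derivations `D` which are zero on `ℂ` and preserve the ultrapower of `K`, and the pairs of a space `W` of vectors
and a space `T` of derivations which kill `t`, preserve `W` and map the `b_k` to `W` (`exists_pairK`); among those with a
`T` of small codimension take one with the smallest `W`. Then `W` has a basis which is killed by `T`. The derivatives of a
value in `Values K p` are in the ultrapower of `Values K p`; by the minimality the derivatives `∂_w F_j(y, t)`, `w` in the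
basis of `W`, are in the ultrapower of `K`, equal to `c_w`. Their derivatives `D c_w` are combinations of the `λ_k`, by the
same argument, and so `D c_w = 0`. Hence `∂_w F_j - c_w` is a polynomial with coefficients killed by `T` which vanishes at
`y`, and these polynomials vanish on `y + W`. The uniformity is proved with ultraproducts, and the counting with the
starting library (`Pool.Agent.R350`). For 3 one uses the strong six exponentials theorem of D. Roy.
-/

set_option autoImplicit false

namespace Pool.Agent.Results.MP_c9768e_nt.ZerosAndValues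

open MvPolynomial

/-- the linear combinations, with coefficients in `K`, of `1` and logarithms of algebraic numbers -/
noncomputable def LogForms (K : IntermediateField ℚ ℂ) : Submodule K ℂ :=
  Submodule.span K ({1} ∪ {z : ℂ | IsAlgebraic ℚ (Complex.exp z)})

/-- the space over `K` spanned by `LogForms K` and the numbers `p_1, …, p_g` -/
noncomputable def Values (K : IntermediateField ℚ ℂ) {g : ℕ} (p : Fin g → ℂ) : Submodule K ℂ :=
  LogForms K ⊔ Submodule.span K (Set.range p)

/-- the tuple `y = β + ∑_k λ_k x_k + ∑_j q_j x'_j` -/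
noncomputable def point {s m n : ℕ} (l : Fin s → ℂ) (q : Fin m → ℂ) (β : Fin n → ℂ)
    (x : Fin s ⊕ Fin m → Fin n → ℤ) : Fin n → ℂ :=
  fun i => β i + ∑ k, l k * (x (Sum.inl k) i : ℂ) + ∑ j, q j * (x (Sum.inr j) i : ℂ)

/-- the polynomials `F_j(·, t)`, for polynomials `F_j` in `n` variables with coefficients which are polynomials in `τ`
parameters -/
noncomputable def spec {r n τ : ℕ} (F : Fin r → MvPolynomial (Fin n) (MvPolynomial (Fin τ) ℂ)) (t : Fin τ → ℂ) :
    Fin r → MvPolynomial (Fin n) ℂ :=
  fun j => MvPolynomial.map (eval t) (F j)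

/-- for some subspace `U` of dimension `f` of `κ ^ n`, with the basis `w`, all the `P_j` with a value in `L` at `v`
are affine on `v + U_ℂ`, with slopes `c_a` in `K`, and zero there if they vanish at `v` -/
def Flat (κ : Type) [Field κ] [Algebra κ ℂ] {K : IntermediateField ℚ ℂ} (L : Submodule K ℂ) {r n : ℕ}
    (P : Fin r → MvPolynomial (Fin n) ℂ) (f : ℕ) (v : Fin n → ℂ) : Prop :=
  ∃ w : Fin f → Fin n → κ, LinearIndependent κ w ∧ ∀ j, eval v (P j) ∈ L →
    ∃ c : Fin f → K, (eval v (P j) = 0 → c = 0) ∧ ∀ z : Fin f → ℂ,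
      eval (fun i => v i + ∑ a, z a * algebraMap κ ℂ (w a i)) (P j) = eval v (P j) + ∑ a, z a * (c a : ℂ)

theorem flat_of_good {κ : Type} [Field κ] [Algebra κ ℂ] {K : IntermediateField ℚ ℂ} {L : Submodule K ℂ} {r n τ f : ℕ}
    {F : Fin r → MvPolynomial (Fin n) (MvPolynomial (Fin τ) ℂ)} {t : Fin τ → κ} {v : Fin n → ℂ}
    (h : Pool.Agent.D0H4.Lv.Good κ K L (Pool.Agent.D0H4.Lv.Fam F t) f v) :
    Flat κ L (spec F (fun i => algebraMap κ ℂ (t i))) f v := by
  obtain ⟨w, hw, h1⟩ := h
  exact ⟨w, hw, fun j hj => h1 _ ⟨j, rfl⟩ hj⟩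

/-- **Main result.** -/
theorem result :
    (∀ K : IntermediateField ℚ ℂ, Algebra.IsAlgebraic ℚ K → ∀ s m n τ r d e : ℕ, ∃ C : ℕ, ∀ l : Fin s → ℂ,
      (∀ k, l k ∈ LogForms K) → LinearIndependent K l → ∀ (q : Fin m → ℂ) (β : Fin n → ℂ)
      (F : Fin r → MvPolynomial (Fin n) (MvPolynomial (Fin τ) ℂ)), (∀ j i, (F j).degreeOf i ≤ d) →
      (∀ j γ i, ((F j).coeff γ).degreeOf i ≤ d) → ∀ M : ℕ, 1 ≤ M →
      Set.ncard {x : Fin s ⊕ Fin m → Fin n → ℤ | (∀ k i, |x k i| ≤ M) ∧ ∃ t : Fin τ → K,
        ¬ Flat K (⊥ : Submodule K ℂ) (spec F (fun i => (t i : ℂ))) (e + 1) (point l q β x)} ≤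
        C * M ^ (s * e + m * n + (n - e) * (n - 1) + τ)) ∧
    (∀ K : IntermediateField ℚ ℂ, Algebra.IsAlgebraic ℚ K → ∀ s m n τ g r d e : ℕ, ∃ C : ℕ, ∀ l : Fin s → ℂ,
      (∀ k, l k ∈ LogForms K) → LinearIndependent K (Fin.cons 1 l : Fin (s + 1) → ℂ) →
      ∀ (q : Fin m → ℂ) (p : Fin g → ℂ) (β : Fin n → ℂ)
      (F : Fin r → MvPolynomial (Fin n) (MvPolynomial (Fin τ) ℂ)), (∀ j i, (F j).degreeOf i ≤ d) →
      (∀ j γ i, ((F j).coeff γ).degreeOf i ≤ d) → ∀ M : ℕ, 1 ≤ M →
      Set.ncard {x : Fin s ⊕ Fin m → Fin n → ℤ | (∀ k i, |x k i| ≤ M) ∧ ∃ t : Fin τ → K,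
        ¬ Flat K (Values K p) (spec F (fun i => (t i : ℂ))) (e + 1) (point l q β x)} ≤
        C * M ^ (s * e + m * n + (n - e) * (n + g ^ 2 + 3 * g + 1) + τ)) ∧
    (∀ s m n τ g r d e : ℕ, ∃ C : ℕ, ∀ l : Fin s → ℂ, (∀ k, l k ∈ LogForms (algebraicClosure ℚ ℂ)) →
      LinearIndependent (algebraicClosure ℚ ℂ) (Fin.cons 1 l : Fin (s + 1) → ℂ) →
      ∀ (q : Fin m → ℂ) (p : Fin g → ℂ) (β : Fin n → ℂ)
      (F : Fin r → MvPolynomial (Fin n) (MvPolynomial (Fin τ) ℂ)), (∀ j i, (F j).degreeOf i ≤ d) →
      (∀ j γ i, ((F j).coeff γ).degreeOf i ≤ d) → ∀ M : ℕ, 1 ≤ M →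
      Set.ncard {x : Fin s ⊕ Fin m → Fin n → ℤ | (∀ k i, |x k i| ≤ M) ∧ ∃ t : Fin τ → ℚ,
        ¬ Flat ℚ (Values (algebraicClosure ℚ ℂ) p) (spec F (fun i => (t i : ℂ))) (e + 1) (point l q β x)} ≤
        C * M ^ (s * e + m * n + n * ((n + g + 1) ^ 2 + n) + τ)) ∧
    (∀ K : IntermediateField ℚ ℂ, Algebra.IsAlgebraic ℚ K → ∀ s n τ g r d e S : ℕ,
      (s * e + (n - e) * (n - 1) + τ < S → ∃ E : ℕ, ∀ l : Fin s → ℂ, (∀ k, l k ∈ LogForms K) →
        LinearIndependent K l → ∀ (β : Fin n → ℂ) (F : Fin r → MvPolynomial (Fin n) (MvPolynomial (Fin τ) ℂ)),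
        (∀ j i, (F j).degreeOf i ≤ d) → (∀ j γ i, ((F j).coeff γ).degreeOf i ≤ d) →
        ∀ φ : Fin S → Fin s × Fin n → K,
        ∃ Δ : MvPolynomial (Fin S) K, Δ ≠ 0 ∧ Δ.totalDegree ≤ E ∧
          ∀ (b : Fin s × Fin n → K) (t : Fin τ → K),
            ¬ Flat K (⊥ : Submodule K ℂ) (spec F (fun i => (t i : ℂ))) (e + 1)
              (fun i => β i + ∑ k, l k * (b (k, i) : ℂ)) → eval (fun q => ∑ x, φ q x * b x) Δ = 0) ∧
      (s * e + (n - e) * (n + g ^ 2 + 3 * g + 1) + τ < S → ∃ E : ℕ, ∀ l : Fin s → ℂ, (∀ k, l k ∈ LogForms K) →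
        LinearIndependent K (Fin.cons 1 l : Fin (s + 1) → ℂ) → ∀ (p : Fin g → ℂ) (β : Fin n → ℂ)
        (F : Fin r → MvPolynomial (Fin n) (MvPolynomial (Fin τ) ℂ)),
        (∀ j i, (F j).degreeOf i ≤ d) → (∀ j γ i, ((F j).coeff γ).degreeOf i ≤ d) →
        ∀ φ : Fin S → Fin s × Fin n → K,
        ∃ Δ : MvPolynomial (Fin S) K, Δ ≠ 0 ∧ Δ.totalDegree ≤ E ∧
          ∀ (b : Fin s × Fin n → K) (t : Fin τ → K),
            ¬ Flat K (Values K p) (spec F (fun i => (t i : ℂ))) (e + 1)
              (fun i => β i + ∑ k, l k * (b (k, i) : ℂ)) → eval (fun q => ∑ x, φ q x * b x) Δ = 0)) ∧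
    (∀ (n r f : ℕ) (P : Fin r → MvPolynomial (Fin n) ℂ) (β : Fin n → ℂ) (w : Fin f → Fin n → ℚ),
      LinearIndependent ℚ w → (∀ (z : Fin f → ℂ) (j : Fin r),
        eval (fun i => β i + ∑ a, z a * (w a i : ℂ)) (P j) = 0) → ∀ s : ℕ,
      ∃ c : ℝ, 0 < c ∧ ∀ (l : Fin s → ℂ) (M : ℕ), c * (M : ℝ) ^ (s * f) ≤
        Set.ncard {x : Fin s ⊕ Fin 0 → Fin n → ℤ | (∀ k i, |x k i| ≤ M) ∧ ∀ j, eval (point l 0 β x) (P j) = 0}) := by
  have hfin : ∀ (s m n M : ℕ) (A : (Fin s ⊕ Fin m → Fin n → ℤ) → Prop),
      ({x : Fin s ⊕ Fin m → Fin n → ℤ | (∀ k i, |x k i| ≤ M) ∧ A x}).Finite := by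
    intro s m n M A
    have h1 : ((Fintype.piFinset fun _ : Fin s ⊕ Fin m => Fintype.piFinset fun _ : Fin n =>
        Finset.Icc (-(M : ℤ)) M : Finset (Fin s ⊕ Fin m → Fin n → ℤ)) :
        Set (Fin s ⊕ Fin m → Fin n → ℤ)).Finite := Finset.finite_toSet _
    refine h1.subset fun A hA => ?_
    rw [Finset.mem_coe, Fintype.mem_piFinset]
    intro i
    rw [Fintype.mem_piFinset]
    intro j
    rw [Finset.mem_Icc, ← abs_le]
    exact hA.1 i j
  refine ⟨fun K hK s m n τ r d e => ?_, fun K hK s m n τ g r d e => ?_, fun s m n τ g r d e => ?_,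
    fun K hK s n τ g r d e S => ⟨fun hS => ?_, fun hS => ?_⟩, fun n r f P β w hw h s => ?_⟩
  · obtain ⟨C, hC⟩ := Pool.Agent.D0H4.Lv.count_finalK0 K s m n τ r d e
    refine ⟨C, fun l hl hli q β F hF1 hF2 M hM => ?_⟩
    refine le_trans (Set.ncard_le_ncard ?_ (hfin _ _ _ _ _))
      (hC (LogForms K) (Pool.Agent.D0H4.Lv.hyp_LK K hK) l hl hli q β F (fun j => ⟨hF1 j, hF2 j⟩) M hM)
    rintro x ⟨h1, t, h2⟩
    exact ⟨h1, t, fun h3 => h2 (flat_of_good h3)⟩
  · obtain ⟨C, hC⟩ := Pool.Agent.D0H4.Lv.count_finalK1 K s m n τ g r d e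
    refine ⟨C, fun l hl hli q p β F hF1 hF2 M hM => ?_⟩
    refine le_trans (Set.ncard_le_ncard ?_ (hfin _ _ _ _ _))
      (hC (LogForms K) (Pool.Agent.D0H4.Lv.hyp_LK K hK) (Pool.Agent.D0H4.Lv.one_LK K) l hl hli q p β F
        (fun j => ⟨hF1 j, hF2 j⟩) M hM)
    rintro x ⟨h1, t, h2⟩
    exact ⟨h1, t, fun h3 => h2 (flat_of_good h3)⟩
  · obtain ⟨C, hC⟩ := Pool.Agent.D0H4.Lv.count_finalA ℚ s m n τ g r d e
      (fun l hl hli => Pool.Agent.D0H4.Lv.c2r (m := 0) hl hli)
      (fun l hl hli p => Pool.Agent.D0H4.Lv.c3r (m := 0) hl hli p)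
    refine ⟨C, fun l hl hli q p β F hF1 hF2 M hM => ?_⟩
    refine le_trans (Set.ncard_le_ncard ?_ (hfin _ _ _ _ _))
      (hC l hl hli q p β F (fun j => ⟨hF1 j, hF2 j⟩) M hM)
    rintro x ⟨h1, t, h2⟩
    exact ⟨h1, t, fun h3 => h2 (flat_of_good h3)⟩
  · obtain ⟨E, hE⟩ := Pool.Agent.D0H4.Lv.dim_finalK0 K s n τ r d e S hS
    refine ⟨E, fun l hl hli β F hF1 hF2 φ => ?_⟩
    obtain ⟨Δ, h1, h2, h3⟩ := hE (LogForms K) (Pool.Agent.D0H4.Lv.hyp_LK K hK) l hl hli β F
      (fun j => ⟨hF1 j, hF2 j⟩) φ
    exact ⟨Δ, h1, h2, fun b t hb => h3 b t (fun h4 => hb (flat_of_good h4))⟩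
  · obtain ⟨E, hE⟩ := Pool.Agent.D0H4.Lv.dim_finalK1 K s n τ g r d e S hS
    refine ⟨E, fun l hl hli p β F hF1 hF2 φ => ?_⟩
    obtain ⟨Δ, h1, h2, h3⟩ := hE (LogForms K) (Pool.Agent.D0H4.Lv.hyp_LK K hK) (Pool.Agent.D0H4.Lv.one_LK K) l hl hli
      p β F (fun j => ⟨hF1 j, hF2 j⟩) φ
    exact ⟨Δ, h1, h2, fun b t hb => h3 b t (fun h4 => hb (flat_of_good h4))⟩
  · obtain ⟨c, hc, h1⟩ := Pool.Agent.D0H4.Rk.lower P β ⟨w, hw, h⟩ s
    refine ⟨c, hc, fun l M => (h1 l M).trans ?_⟩
    have h2 := Set.ncard_le_ncard_of_injOn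
      (s := {x : Fin s → Fin n → ℤ | (∀ k i, |x k i| ≤ M) ∧
        Pool.Agent.D0H4.Rk.OnFlat ℚ P 0 (fun i => β i + ∑ k, l k * (x k i : ℂ))})
      (fun (x : Fin s → Fin n → ℤ) => (Sum.elim x Fin.elim0 : Fin s ⊕ Fin 0 → Fin n → ℤ)) (by
        rintro x ⟨h1, h2⟩
        refine ⟨?_, ?_⟩
        · rintro (k | k) i
          · exact h1 k i
          · exact k.elim0
        · have h3 : point l 0 β (Sum.elim x Fin.elim0) = fun i => β i + ∑ k, l k * (x k i : ℂ) := by
            funext i
            simp [point]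
          rw [h3]
          exact (Pool.Agent.D0H4.Rk.onFlat_zero P _).mp h2) (by
        intro x _ y _ hxy
        funext k
        exact congrFun hxy (Sum.inl k))
      (hfin s 0 n M (fun x => ∀ j, eval (point l 0 β x) (P j) = 0))
    exact_mod_cast h2

end Pool.Agent.Results.MP_c9768e_nt.ZerosAndValues
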